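import Pool.Agent.X287.STO
import Pool.Agent.X287.STM

/-!
# The Stark-Tate conjecture over real quadratic fields: from larger moduli to smaller ones

`K` is a real quadratic field with real embeddings `σ₁ ≠ σ₂`. A datum (structure `Datum`) consists of an ideal `𝔪 ≠ (0), (1)`, a class
map `c` modulo `𝔪∞₂` with values in a finite abelian group `G`, the partial zeta functions `ζ(s, A)`, `A ∈ G`, and a Galois extension
`H/K` with group `G` (`art : G ≅ Gal(H/K)`) and a real embedding `τ` above `σ₁`, such that the class of `(y)`, `y ≡ 1` modulo `𝔪`,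
`σ₂(y) < 0`, acts as the complex conjugation above `σ₂`: for example the ray class group and the ray class field modulo `𝔪∞₂`. Q1 for
the datum (`Datum.StarkTate`): there are units `ε_A` of `H` with 1. `τ(ε_A) = exp(-2ζ'(0, A))`, 2. `art(B) ε_A = ε_{AB}`,
3. absolute value `1` in all the embeddings above `σ₂`, and the fields `H(ε_A^{1/2})` are contained in abelian extensions of `K`.

THEOREM. Suppose that for all classes `g, h ∈ G` there are primes `v₁ ≠ v₂`, prime to `𝔪`, with `c(v₁) = g`, `c(v₂) = h` and data for the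
moduli `𝔪 v₁`, `𝔪 v₂` and `𝔪 v₁ v₂` (with fields `H ⊆ H₁, H₂ ⊆ H₁₂`) for which Q1 is true, such that the degrees `[H₁ : H]`, `[H₂ : H]`
are even and `Gal(H₁₂/K)` is mapped onto the fibre product of `Gal(H₁/K)` and `Gal(H₂/K)` over `Gal(H/K)` (structure `Square`). Then Q1
is true for `𝔪`: all of it, with the exact (positive) values and with the square root condition.

So a counterexample `𝔪` yields counterexamples among the larger moduli: there are classes `g, h` such that Q1 is false for at least one of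
`𝔪 v₁`, `𝔪 v₂`, `𝔪 v₁ v₂` for all the `v₁`, `v₂` of these classes as above. For the ray class fields the surjectivity onto the fibre
product is the Chinese remainder theorem, and `[H₁ : H] = (N v₁ - 1) / t`, where `t` is the order modulo `v₁` of a generator `u₀` of
the group of the units which are `≡ 1` modulo `𝔪` and positive at `σ₂`; by Chebotarev's theorem this is even for infinitely many
primes of every class, unless `√u₀` is in `H` but not in `K`. With this exception, Q1 for all the moduli with at least `N` prime divisors,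
or of norm at least `N`, implies Q1 for all the moduli. This (class field theory) is not formalised.

Proof. 1. The norm of the unit for `𝔪 v` is `w_g` with the values `exp(-2ζ'(0, A) + 2ζ'(0, A g⁻¹))`, `g = c(v)` (the relation between the
zeta functions). By the square root condition it is a square in `H₁`, and by comparing two primes of the same class in `H`:
`w_g = b_g²`. 2. `b_g^{1 - h⁻¹} = b_h^{1 - g⁻¹}`, without a sign: both are the norm, in different order, of the root of the unit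
for `𝔪 v₁ v₂` in an abelian extension. 3. Let `ρ` be the complex conjugation above `σ₂`, `ε = ± b_ρ > 0`. As `ζ'(0, Aρ) = -ζ'(0, A)`
and `|b_g|² > 0` above `σ₂` we have `b_g^ρ = b_g⁻¹`, so that 2. for `h = ρ` is `ε^{1 - g⁻¹} = w_g`: this determines all the signs
of the conjugates of `ε`. 4. `H(√ε)/K` is abelian by 2. and Kummer theory.

Ingredients: the relation between the partial zeta functions of `𝔪` and `𝔪 v` (`Pool.Agent.X287.STM`), the sign law (`STR`), Kummer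
theory for the square root condition (`STY`, `STN`, `STO`, `STT`), Hecke's continuation.
-/

set_option autoImplicit false
set_option linter.unusedSectionVars false

open Filter Topology
open IsDedekindDomain NumberField

namespace Pool.Agent.Results.MP_1ef7cf_nt.LargerModuli

section defs

/-- `c` is multiplicative on the ideals prime to `𝔪`, and trivial on the ideals `(x)` with `x ≡ 1` modulo `𝔪` and
`σ₂(x) > 0`. -/
structure IsClassMap {K : Type} [Field K] [NumberField K] {G : Type} [CommGroup G] (𝔪 : Ideal (𝓞 K)) (σ₂ : K →+* ℝ)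
    (c : Ideal (𝓞 K) → G) : Prop where
  mul : ∀ I J : Ideal (𝓞 K), IsCoprime I 𝔪 → IsCoprime J 𝔪 → c (I * J) = c I * c J
  ray : ∀ x : 𝓞 K, x ≠ 0 → x - 1 ∈ 𝔪 → 0 < σ₂ (x : K) → c (Ideal.span {x}) = 1

/-- `Z A` is the partial zeta function of `A`, continued to `ℂ - {1}` and meromorphic at `1`. -/
structure IsPartialZeta {K : Type} [Field K] [NumberField K] {G : Type} (𝔪 : Ideal (𝓞 K)) (c : Ideal (𝓞 K) → G)
    (Z : G → ℂ → ℂ) : Prop where
  sum : ∀ (A : G) (s : ℂ), 1 < s.re → HasSum (fun I : {I : Ideal (𝓞 K) // IsCoprime I 𝔪 ∧ c I = A} =>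
    ((Ideal.absNorm I.1 : ℕ) : ℂ) ^ (-s)) (Z A s)
  analytic : ∀ (A : G) (s : ℂ), s ≠ 1 → AnalyticAt ℂ (Z A) s
  mero : ∀ A : G, MeromorphicAt (Z A) 1

/-- A modulus `𝔪 ≠ (0), (1)`, with a class map `c` modulo `𝔪∞₂` and the partial zeta functions `Z A`. -/
structure ClassDatum (K : Type) [Field K] [NumberField K] (σ₂ : K →+* ℝ) where
  𝔪 : Ideal (𝓞 K)
  ne_bot : 𝔪 ≠ ⊥
  ne_top : 𝔪 ≠ ⊤
  G : Type
  [commGroup : CommGroup G]
  [fintype : Fintype G]
  c : Ideal (𝓞 K) → G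
  isClassMap : IsClassMap 𝔪 σ₂ c
  Z : G → ℂ → ℂ
  isPartialZeta : IsPartialZeta 𝔪 c Z

attribute [instance] ClassDatum.commGroup ClassDatum.fintype

/-- The class of `(y)`, `y ≡ 1` modulo `𝔪`, `σ₂(y) < 0`, acts as the complex conjugation above `σ₂`. -/
def ActsAsConjugation {K : Type} [Field K] [NumberField K] {G : Type} [CommGroup G] {H : Type} [Field H] [Algebra K H]
    (𝔪 : Ideal (𝓞 K)) (σ₂ : K →+* ℝ) (c : Ideal (𝓞 K) → G) (art : G ≃* Gal(H/K)) : Prop :=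
  ∀ y : 𝓞 K, y ≠ 0 → y - 1 ∈ 𝔪 → σ₂ (y : K) < 0 → ∀ φ : H →+* ℂ,
    φ.comp (algebraMap K H) = Complex.ofRealHom.comp σ₂ → ∀ x, φ (art (c (Ideal.span {y})) x) = starRingEnd ℂ (φ x)

/-- In addition a Galois extension `H/K` whose Galois group is identified with `G` by `art`, and a real embedding `τ` of `H` above
`σ₁`; the class of `(y)`, `y ≡ 1` modulo `𝔪`, `σ₂(y) < 0`, acts as the complex conjugation above `σ₂`. -/
structure Datum (K : Type) [Field K] [NumberField K] (σ₁ σ₂ : K →+* ℝ) extends ClassDatum K σ₂ where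
  H : Type
  [field : Field H]
  [numberField : NumberField H]
  [algebra : Algebra K H]
  [galois : IsGalois K H]
  art : G ≃* Gal(H/K)
  τ : H →+* ℝ
  above : τ.comp (algebraMap K H) = σ₁
  conj : ActsAsConjugation 𝔪 σ₂ c art

attribute [instance] Datum.field Datum.numberField Datum.algebra Datum.galois

/-- `u` has a square root in an abelian extension `M` of `K` (which contains `H`). -/
def HasAbelianRoot (K : Type) [Field K] [NumberField K] {H : Type} [Field H] [NumberField H] [Algebra K H] (u : H) : Prop :=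
  ∃ (M : Type) (_ : Field M) (_ : NumberField M) (_ : Algebra H M) (_ : Algebra K M)
    (_ : IsScalarTower K H M) (_ : IsGalois K M) (α : M), (∀ a b : Gal(M/K), a * b = b * a) ∧
      α ^ 2 = algebraMap H M u

/-- The units `ε A` have the properties 1, 2, 3 of Q1, and `H(ε_A^{1/2})` is contained in an abelian extension of `K`. -/
structure IsStarkTateFamily {K : Type} [Field K] [NumberField K] {G : Type} [CommGroup G] {H : Type} [Field H]
    [NumberField H] [Algebra K H] (σ₂ : K →+* ℝ) (Z : G → ℂ → ℂ) (art : G ≃* Gal(H/K)) (τ : H →+* ℝ)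
    (ε : G → (𝓞 H)ˣ) : Prop where
  eq : ∀ A, ((τ ((ε A : 𝓞 H) : H) : ℝ) : ℂ) = Complex.exp (-2 * deriv (Z A) 0)
  galois : ∀ A B, art B ((ε A : 𝓞 H) : H) = ((ε (A * B) : 𝓞 H) : H)
  circle : ∀ φ : H →+* ℂ, φ.comp (algebraMap K H) = Complex.ofRealHom.comp σ₂ → ∀ A, ‖φ ((ε A : 𝓞 H) : H)‖ = 1
  abelian : ∀ A, HasAbelianRoot K ((ε A : 𝓞 H) : H)

variable {K : Type} [Field K] [NumberField K] {σ₁ σ₂ : K →+* ℝ}

/-- Q1 for the modulus `𝔪`. -/
def Datum.StarkTate (D : Datum K σ₁ σ₂) : Prop := ∃ ε : D.G → (𝓞 D.H)ˣ, IsStarkTateFamily σ₂ D.Z D.art D.τ ε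

/-- `𝔪' = 𝔪 v` with a prime `v ∤ 𝔪`, the class map `c'` refines `c`, and `emb : H → H'` is compatible with the Galois groups and the
real embeddings. -/
structure IsLayer {G G' H H' : Type} [CommGroup G] [CommGroup G'] [Field H] [Algebra K H] [Field H'] [Algebra K H']
    (𝔪 𝔪' : Ideal (𝓞 K)) (c : Ideal (𝓞 K) → G) (c' : Ideal (𝓞 K) → G') (art : G ≃* Gal(H/K)) (art' : G' ≃* Gal(H'/K))
    (τ : H →+* ℝ) (τ' : H' →+* ℝ) (v : HeightOneSpectrum (𝓞 K)) (π : G' →* G) (emb : H →+* H') : Prop where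
  prime : IsCoprime v.asIdeal 𝔪
  modulus : 𝔪' = 𝔪 * v.asIdeal
  surjective : Function.Surjective π
  classes : ∀ I, IsCoprime I 𝔪' → π (c' I) = c I
  restrict : ∀ (g' : G') (x : H), art' g' (emb x) = emb (art (π g') x)
  above : ∀ x, τ' (emb x) = τ x

/-- The modulus of `D'` is `𝔪 v` with a prime `v ∤ 𝔪`, its class map refines the class map of `D`, and `H ⊆ H'`. -/
structure Layer (D D' : Datum K σ₁ σ₂) where
  v : HeightOneSpectrum (𝓞 K)
  π : D'.G →* D.G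
  emb : D.H →+* D'.H
  isLayer : IsLayer D.𝔪 D'.𝔪 D.c D'.c D.art D'.art D.τ D'.τ v π emb

/-- The degree of `H'` over `H` is even. -/
def Layer.EvenDegree {D D' : Datum K σ₁ σ₂} (L : Layer D D') : Prop := Even (Nat.card L.π.ker)

/-- `G₁₂` is mapped onto the fibre product of `G₁` and `G₂` over `G`. -/
def OntoFibreProduct {G G₁ G₂ G₁₂ : Type} [CommGroup G] [CommGroup G₁] [CommGroup G₂] [CommGroup G₁₂] (p₁ : G₁ →* G)
    (p₂ : G₂ →* G) (π₁ : G₁₂ →* G₁) (π₂ : G₁₂ →* G₂) : Prop :=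
  ∀ g₁ g₂, p₁ g₁ = p₂ g₂ → ∃ g, π₁ g = g₁ ∧ π₂ g = g₂

/-- The moduli `𝔪`, `𝔪 v₁`, `𝔪 v₂` and `𝔪 v₁ v₂`; the degrees of `H₁` and `H₂` over `H` are even, and the
Galois group of `H₁₂` is mapped onto the fibre product of the Galois groups of `H₁` and `H₂`. -/
structure Square (D D₁ D₂ D₁₂ : Datum K σ₁ σ₂) where
  L₁ : Layer D D₁
  L₂ : Layer D D₂
  M₁ : Layer D₁ D₁₂
  M₂ : Layer D₂ D₁₂
  prime₁ : M₂.v = L₁.v
  prime₂ : M₁.v = L₂.v
  even₁ : L₁.EvenDegree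
  even₂ : L₂.EvenDegree
  fibre : OntoFibreProduct L₁.π L₂.π M₁.π M₂.π

end defs

section aux
open Pool.Agent.X287.ST

variable {K : Type} [Field K] [NumberField K] {σ₁ σ₂ : K →+* ℝ}

section
variable {D D' : Datum K σ₁ σ₂} (L : Layer D D')

theorem Layer.prime : IsCoprime L.v.asIdeal D.𝔪 := L.isLayer.prime
theorem Layer.modulus : D'.𝔪 = D.𝔪 * L.v.asIdeal := L.isLayer.modulus
theorem Layer.surjective : Function.Surjective L.π := L.isLayer.surjective
theorem Layer.classes : ∀ I, IsCoprime I D'.𝔪 → L.π (D'.c I) = D.c I := L.isLayer.classes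

/-- the embedding over `K` -/
noncomputable def Layer.incl : D.H →ₐ[K] D'.H :=
  { L.emb with
    commutes' := fun a => by
      apply D'.τ.injective
      have h1 : D.τ (algebraMap K D.H a) = σ₁ a := congrArg (fun f : K →+* ℝ => f a) D.above
      have h2 : D'.τ (algebraMap K D'.H a) = σ₁ a := congrArg (fun f : K →+* ℝ => f a) D'.above
      have h3 : D'.τ (L.emb (algebraMap K D.H a)) = D.τ (algebraMap K D.H a) := L.isLayer.above _
      exact h3.trans (h1.trans h2.symm) }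

theorem Layer.restrict (g' : D'.G) (x : D.H) : D'.art g' (L.incl x) = L.incl (D.art (L.π g') x) :=
  L.isLayer.restrict g' x

theorem Layer.above (x : D.H) : D'.τ (L.incl x) = D.τ x := L.isLayer.above x

end

/-- the numbers `ζ'(0, A)` -/
noncomputable def dd (D : Datum K σ₁ σ₂) (A : D.G) : ℝ := (deriv (D.Z A) 0).re

/-- the unit -/
structure IsU (D : Datum K σ₁ σ₂) (u : D.H) : Prop where
  val : ∀ A, D.τ (D.art A u) = Real.exp (-2 * dd D A)
  circle : ∀ φ : D.H →+* ℂ, φ.comp (algebraMap K D.H) = Complex.ofRealHom.comp σ₂ → ‖φ u‖ = 1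
  abelian : HasAbelianRoot K u

section
variable (hσ : σ₁ ≠ σ₂)
include hσ

theorem classR (D : Datum K σ₁ σ₂) : IsClassMapR D.𝔪 {σ₁} D.c :=
  ⟨D.isClassMap.mul, fun x hx0 hx1 hx2 => D.isClassMap.ray x hx0 hx1
    (hx2 σ₂ (by rw [Finset.mem_singleton]; exact hσ.symm))⟩

theorem dd_eq (D : Datum K σ₁ σ₂) : (∀ A, D.Z A 0 = 0) ∧ ∀ A, deriv (D.Z A) 0 = (dd D A : ℂ) := by
  have hr : 1 ≤ ({σ₁} : Finset (K →+* ℝ)).card + InfinitePlace.nrComplexPlaces K := by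
    rw [Finset.card_singleton]
    omega
  have hγ : Real.pi / 2 < Real.pi := by linarith [Real.pi_pos]
  have hone := fun A => one_place D.ne_top D.ne_bot (classR hσ D) hr
    (⟨D.isPartialZeta.sum, D.isPartialZeta.analytic, D.isPartialZeta.mero⟩ : IsPZ D.𝔪 D.c D.Z) hγ A
  refine ⟨fun A => (hone A).1, fun A => ?_⟩
  apply Complex.ext
  · rw [Complex.ofReal_re]
    rfl
  · rw [Complex.ofReal_im]
    exact (hone A).2.1

theorem isU_of (D : Datum K σ₁ σ₂) (h : D.StarkTate) : ∃ u : (𝓞 D.H)ˣ, IsU D ((u : 𝓞 D.H) : D.H) := by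
  obtain ⟨ε, hε⟩ := h
  refine ⟨ε 1, fun A => ?_, fun φ hφ => hε.circle φ hφ 1, hε.abelian 1⟩
  have h1 := hε.eq A
  rw [(dd_eq hσ D).2] at h1
  rw [hε.galois, one_mul]
  have h2 : ((D.τ ((ε A : 𝓞 D.H) : D.H) : ℝ) : ℂ) = ((Real.exp (-2 * dd D A) : ℝ) : ℂ) := by
    rw [h1]
    push_cast
    rfl
  exact Complex.ofReal_injective h2

theorem of_isU (D : Datum K σ₁ σ₂) (u : (𝓞 D.H)ˣ) (hu : IsU D ((u : 𝓞 D.H) : D.H)) : D.StarkTate := by
  refine ⟨fun A => Units.map (RingOfIntegers.mapRingHom ((D.art A : D.H ≃ₐ[K] D.H) : D.H →+* D.H) : 𝓞 D.H →* 𝓞 D.H) u,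
    fun A => ?_, fun A B => ?_, fun φ hφ A => ?_, fun A => ?_⟩
  · rw [(dd_eq hσ D).2]
    have h2 := hu.val A
    show ((D.τ (D.art A ((u : 𝓞 D.H) : D.H)) : ℝ) : ℂ) = _
    rw [h2]
    push_cast
    rfl
  · show D.art B (D.art A ((u : 𝓞 D.H) : D.H)) = D.art (A * B) ((u : 𝓞 D.H) : D.H)
    rw [mul_comm, map_mul]
    rfl
  · show ‖φ (D.art A ((u : 𝓞 D.H) : D.H))‖ = 1
    refine hu.circle (φ.comp ((D.art A : D.H ≃ₐ[K] D.H) : D.H →+* D.H)) ?_
    rw [← hφ]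
    ext a
    simp
  · obtain ⟨M, _, _, _, _, _, _, α, hcomm, hα⟩ := hu.abelian
    obtain ⟨g, hg⟩ := lift_exists D.art (M := M) A
    refine ⟨M, inferInstance, inferInstance, inferInstance, inferInstance, inferInstance, inferInstance, g α, hcomm, ?_⟩
    show (g α) ^ 2 = algebraMap D.H M (D.art A ((u : 𝓞 D.H) : D.H))
    rw [← map_pow, hα, hg]

/-- the embeddings of a real quadratic field -/
theorem emb_quad (hK : Module.finrank ℚ K = 2) (φ : K →+* ℂ) :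
    φ = Complex.ofRealHom.comp σ₁ ∨ φ = Complex.ofRealHom.comp σ₂ := by
  classical
  by_contra hcon
  push Not at hcon
  have h2 : Fintype.card (K →+* ℂ) = 2 := by
    rw [NumberField.Embeddings.card, hK]
  have hne : Complex.ofRealHom.comp σ₁ ≠ Complex.ofRealHom.comp σ₂ := by
    intro hab
    apply hσ
    ext z
    have := congrArg (fun f : K →+* ℂ => f z) hab
    simpa using this
  have h3 : (({φ, Complex.ofRealHom.comp σ₁, Complex.ofRealHom.comp σ₂} : Finset (K →+* ℂ))).card = 3 := by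
    rw [Finset.card_eq_three]
    exact ⟨_, _, _, hcon.1, hcon.2, hne, rfl⟩
  have h4 := Finset.card_le_univ (({φ, Complex.ofRealHom.comp σ₁, Complex.ofRealHom.comp σ₂} : Finset (K →+* ℂ)))
  rw [h3, h2] at h4
  omega

theorem circ_quad (hK : Module.finrank ℚ K = 2) {H : Type} [Field H] [Algebra K H] (w : H) :
    Circ (Complex.ofRealHom.comp σ₁) w ↔ ∀ φ : H →+* ℂ, φ.comp (algebraMap K H) = Complex.ofRealHom.comp σ₂ →
      ‖φ w‖ = 1 := by
  have hconj : ComplexEmbedding.conjugate (Complex.ofRealHom.comp σ₁) = Complex.ofRealHom.comp σ₁ := by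
    ext x
    simp [ComplexEmbedding.conjugate_coe_eq]
  have hne : Complex.ofRealHom.comp σ₂ ≠ Complex.ofRealHom.comp σ₁ := by
    intro hab
    apply hσ
    ext z
    have := congrArg (fun f : K →+* ℂ => f z) hab
    simpa using this.symm
  constructor
  · intro h φ hφ
    refine h φ ?_ ?_
    · rw [hφ]
      exact hne
    · rw [hφ, hconj]
      exact hne
  · intro h φ h1 _
    rcases emb_quad hσ hK (φ.comp (algebraMap K H)) with h3 | h3
    · exact absurd h3 h1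
    · exact h φ h3

/-- **one prime** -/
theorem layer_step (hK : Module.finrank ℚ K = 2) {D D' : Datum K σ₁ σ₂} (L : Layer D D') [DecidableEq D.G]
    {u : (𝓞 D'.H)ˣ} (hu : IsU D' ((u : 𝓞 D'.H) : D'.H)) :
    ∃ w : (𝓞 D.H)ˣ, L.incl ((w : 𝓞 D.H) : D.H) = nrm D'.art L.π ((u : 𝓞 D'.H) : D'.H) ∧
      (∀ A, D.τ (D.art A ((w : 𝓞 D.H) : D.H)) = Real.exp (-2 * (dd D A - dd D (A * (D.c L.v.asIdeal)⁻¹)))) ∧
      ∀ φ : D.H →+* ℂ, φ.comp (algebraMap K D.H) = Complex.ofRealHom.comp σ₂ → ‖φ ((w : 𝓞 D.H) : D.H)‖ = 1 := by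
  let _ : Algebra D.H D'.H := L.incl.toRingHom.toAlgebra
  have _ : IsScalarTower K D.H D'.H := IsScalarTower.of_algebraMap_eq' (L.incl.comp_algebraMap.symm)
  have hmap : ∀ x, algebraMap D.H D'.H x = L.incl x := fun _ => rfl
  have hcirc := (circ_quad hσ hK ((u : 𝓞 D'.H) : D'.H)).2 hu.circle
  obtain ⟨w, hw1, hw2, -⟩ := norm_unit (τ := Complex.ofRealHom.comp D.τ) (τ' := Complex.ofRealHom.comp D'.τ) D.art
    D'.art L.surjective L.restrict (by
      ext x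
      show ((D'.τ (L.incl x) : ℝ) : ℂ) = (D.τ x : ℂ)
      rw [L.above]) u hcirc
  refine ⟨w, hw1, fun A => ?_, (circ_quad hσ hK _).1 hw2⟩
  have hZ : IsPZ D.𝔪 D.c D.Z := ⟨D.isPartialZeta.sum, D.isPartialZeta.analytic, D.isPartialZeta.mero⟩
  have hZ' : IsPZ (D.𝔪 * L.v.asIdeal) D'.c D'.Z := by
    rw [← L.modulus]
    exact ⟨D'.isPartialZeta.sum, D'.isPartialZeta.analytic, D'.isPartialZeta.mero⟩
  have hc' : Pool.Agent.X287.ST.IsClassMap (D.𝔪 * L.v.asIdeal) D'.c := by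
    rw [← L.modulus]
    exact (classR hσ D').toClass
  have hsum := euler_deriv D.ne_top (classR hσ D).toClass hZ (dd_eq hσ D).1 L.prime hc' L.π
    (fun I hI => L.classes I (by rw [L.modulus]; exact hI)) hZ' A
  have hsum2 : ∑ g' ∈ Finset.univ.filter (fun g' => L.π g' = A), dd D' g' =
      dd D A - dd D (A * (D.c L.v.asIdeal)⁻¹) := by
    have h2 := congrArg Complex.re hsum
    rw [Complex.re_sum, Complex.sub_re] at h2
    exact h2
  obtain ⟨g₀, rfl⟩ := L.surjective A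
  have h3 : D.τ (D.art (L.π g₀) ((w : 𝓞 D.H) : D.H)) = D'.τ (D'.art g₀ (nrm D'.art L.π ((u : 𝓞 D'.H) : D'.H))) := by
    rw [← hw1, hmap, L.restrict, L.above]
  rw [h3, art_nrm, map_prod, Finset.prod_congr rfl fun g' _ => hu.val g', ← Real.exp_sum, ← Finset.mul_sum, hsum2]

/-- an element of `H` is determined by its value -/
theorem tau_inj (D : Datum K σ₁ σ₂) {x y : D.H} (h : D.τ x = D.τ y) : x = y := D.τ.injective h

theorem card_ker {G G' : Type} [CommGroup G] [Fintype G] [DecidableEq G] [CommGroup G'] [Fintype G'] (π : G' →* G) :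
    (Finset.univ.filter (fun κ => π κ = 1)).card = Nat.card π.ker := by
  rw [← Fintype.card_subtype, ← Nat.card_eq_fintype_card]
  exact Nat.card_congr (Equiv.refl _)

theorem art_one (D : Datum K σ₁ σ₂) (x : D.H) : D.art 1 x = x := by
  rw [map_one]
  rfl

/-- the square root in the upper field -/
theorem upper_root {D D' : Datum K σ₁ σ₂} (L : Layer D D') [DecidableEq D.G] (he : Even (Nat.card L.π.ker))
    {u : D'.H} (hu0 : u ≠ 0) (hu : IsU D' u) : ∃ b : D'.H, b ^ 2 = nrm D'.art L.π u := by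
  obtain ⟨M, _, _, _, _, _, _, α, hcomm, hα⟩ := hu.abelian
  exact nrm_square D'.art (by rw [card_ker hσ]; exact he) hu0 hcomm hα

theorem incl_eq {D D₁ D₂ D₁₂ : Datum K σ₁ σ₂} (S : Square D D₁ D₂ D₁₂) (x : D.H) :
    S.M₁.incl (S.L₁.incl x) = S.M₂.incl (S.L₂.incl x) := by
  refine tau_inj hσ D₁₂ ?_
  rw [S.M₁.above, S.L₁.above, S.M₂.above, S.L₂.above]

theorem proj_eq {D D₁ D₂ D₁₂ : Datum K σ₁ σ₂} (S : Square D D₁ D₂ D₁₂) (k : D₁₂.G) :
    S.L₁.π (S.M₁.π k) = S.L₂.π (S.M₂.π k) := by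
  apply D.art.injective
  ext x
  have h1 := congrArg (D₁₂.art k) (incl_eq hσ S x)
  rw [S.M₁.restrict, S.L₁.restrict, S.M₂.restrict, S.L₂.restrict, ← incl_eq hσ S] at h1
  exact S.L₁.incl.toRingHom.injective (S.M₁.incl.toRingHom.injective h1)

/-- the square roots in `H` -/
theorem base_root (hK : Module.finrank ℚ K = 2) {D D₁ D₂ D₁₂ : Datum K σ₁ σ₂} (S : Square D D₁ D₂ D₁₂)
    (hcl : D.c S.L₁.v.asIdeal = D.c S.L₂.v.asIdeal) {u₁ : (𝓞 D₁.H)ˣ} (hu₁ : IsU D₁ ((u₁ : 𝓞 D₁.H) : D₁.H))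
    {u₂ : (𝓞 D₂.H)ˣ} (hu₂ : IsU D₂ ((u₂ : 𝓞 D₂.H) : D₂.H)) :
    ∃ (w : (𝓞 D.H)ˣ) (b : D.H), b ^ 2 = ((w : 𝓞 D.H) : D.H) ∧
      (∀ A, D.τ (D.art A ((w : 𝓞 D.H) : D.H)) = Real.exp (-2 * (dd D A - dd D (A * (D.c S.L₁.v.asIdeal)⁻¹)))) ∧
      ∀ φ : D.H →+* ℂ, φ.comp (algebraMap K D.H) = Complex.ofRealHom.comp σ₂ → ‖φ ((w : 𝓞 D.H) : D.H)‖ = 1 := by
  classical
  obtain ⟨w₁, hw₁1, hw₁2, hw₁3⟩ := layer_step hσ hK S.L₁ hu₁
  obtain ⟨w₂, hw₂1, hw₂2, hw₂3⟩ := layer_step hσ hK S.L₂ hu₂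
  obtain ⟨b₁, hb₁⟩ := upper_root hσ S.L₁ S.even₁ (by simp) hu₁
  obtain ⟨b₂, hb₂⟩ := upper_root hσ S.L₂ S.even₂ (by simp) hu₂
  have hww : ((w₁ : 𝓞 D.H) : D.H) = ((w₂ : 𝓞 D.H) : D.H) := by
    refine tau_inj hσ D ?_
    have h1 := hw₁2 1
    have h2 := hw₂2 1
    rw [art_one hσ] at h1 h2
    rw [h1, h2, hcl]
  let _ : Algebra D.H D₁.H := S.L₁.incl.toRingHom.toAlgebra
  have _ : IsScalarTower K D.H D₁.H := IsScalarTower.of_algebraMap_eq' (S.L₁.incl.comp_algebraMap.symm)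
  let _ : Algebra D.H D₂.H := S.L₂.incl.toRingHom.toAlgebra
  have _ : IsScalarTower K D.H D₂.H := IsScalarTower.of_algebraMap_eq' (S.L₂.incl.comp_algebraMap.symm)
  obtain ⟨b, hb⟩ := root_down D.art D₁.art D₂.art D₁₂.art S.M₁.incl S.M₂.incl S.L₁.restrict S.M₁.restrict S.M₂.restrict
    S.fibre (incl_eq hσ S) (w := ((w₁ : 𝓞 D.H) : D.H)) (b₁ := b₁) (b₂ := b₂)
    (by rw [hb₁]; exact hw₁1.symm) (by rw [hb₂, hww]; exact hw₂1.symm)
  refine ⟨w₁, b, ?_, hw₁2, hw₁3⟩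
  apply S.L₁.incl.toRingHom.injective
  show S.L₁.incl (b ^ 2) = S.L₁.incl ((w₁ : 𝓞 D.H) : D.H)
  rw [map_pow, hw₁1, ← hb₁]
  congr 1

/-- half of the commutation relation -/
theorem half_comm (hK : Module.finrank ℚ K = 2) {D D₁ D₁₂ : Datum K σ₁ σ₂} (L : Layer D D₁) (M : Layer D₁ D₁₂)
    [DecidableEq D.G] [DecidableEq D₁.G]
    (hev : Even (Nat.card L.π.ker)) {u₁ : (𝓞 D₁.H)ˣ} (hu₁ : IsU D₁ ((u₁ : 𝓞 D₁.H) : D₁.H))
    {u : (𝓞 D₁₂.H)ˣ} (hu : IsU D₁₂ ((u : 𝓞 D₁₂.H) : D₁₂.H)) {b : D.H}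
    (hb : ∀ A, D.τ (D.art A (b ^ 2)) = Real.exp (-2 * (dd D A - dd D (A * (D.c L.v.asIdeal)⁻¹)))) :
    ∃ a : D₁.H, (M.incl a) ^ 2 = nrm D₁₂.art M.π ((u : 𝓞 D₁₂.H) : D₁₂.H) ∧
      L.incl (b / D.art (D.c M.v.asIdeal)⁻¹ b) = nrm D₁.art L.π a := by
  obtain ⟨w₁, hw₁1, hw₁2, -⟩ := layer_step hσ hK L hu₁
  obtain ⟨w, hw1, hw2, -⟩ := layer_step hσ hK M hu
  have hbw : b ^ 2 = ((w₁ : 𝓞 D.H) : D.H) := by
    refine tau_inj hσ D ?_
    have h1 := hw₁2 1
    have h2 := hb 1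
    rw [art_one hσ] at h1 h2
    rw [h1, h2]
  obtain ⟨F, _, _, _, _, _, _, α, hcomm, hα⟩ := hu₁.abelian
  have hu0 : ((u₁ : 𝓞 D₁.H) : D₁.H) ≠ 0 := by simp
  obtain ⟨a, ha1, ha2⟩ := half_norm D₁.art (π := L.π) (by rw [card_ker hσ]; exact hev) hu0 hcomm hα
    (b := L.incl b) (by rw [← map_pow, hbw, hw₁1]) (D₁.c M.v.asIdeal)⁻¹
  refine ⟨a, ?_, ?_⟩
  · rw [← hw1, ← map_pow]
    congr 1
    refine tau_inj hσ D₁ ?_
    have h1 := hw2 1
    rw [art_one hσ, one_mul] at h1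
    have h2 := hu₁.val 1
    rw [art_one hσ] at h2
    rw [h1, ha1, map_div₀, h2, hu₁.val, ← Real.exp_sub]
    congr 1
    ring
  · have h5 : L.π (D₁.c M.v.asIdeal)⁻¹ = (D.c M.v.asIdeal)⁻¹ := by
      rw [map_inv, L.classes _ M.prime]
    rw [← ha2, map_div₀, L.restrict, h5]

/-- **the commutation relation** for the square roots in `H` -/
theorem comm_rel (hK : Module.finrank ℚ K = 2) {D D₁ D₂ D₁₂ : Datum K σ₁ σ₂} (S : Square D D₁ D₂ D₁₂)
    {u₁ : (𝓞 D₁.H)ˣ} (hu₁ : IsU D₁ ((u₁ : 𝓞 D₁.H) : D₁.H))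
    {u₂ : (𝓞 D₂.H)ˣ} (hu₂ : IsU D₂ ((u₂ : 𝓞 D₂.H) : D₂.H))
    {u : (𝓞 D₁₂.H)ˣ} (hu : IsU D₁₂ ((u : 𝓞 D₁₂.H) : D₁₂.H)) {b₁ b₂ : D.H}
    (hb₁ : ∀ A, D.τ (D.art A (b₁ ^ 2)) = Real.exp (-2 * (dd D A - dd D (A * (D.c S.L₁.v.asIdeal)⁻¹))))
    (hb₂ : ∀ A, D.τ (D.art A (b₂ ^ 2)) = Real.exp (-2 * (dd D A - dd D (A * (D.c S.L₂.v.asIdeal)⁻¹)))) :
    b₁ / D.art (D.c S.L₂.v.asIdeal)⁻¹ b₁ = b₂ / D.art (D.c S.L₁.v.asIdeal)⁻¹ b₂ := by
  classical
  obtain ⟨a₁, ha₁, hn₁⟩ := half_comm hσ hK S.L₁ S.M₁ S.even₁ hu₁ hu hb₁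
  obtain ⟨a₂, ha₂, hn₂⟩ := half_comm hσ hK S.L₂ S.M₂ S.even₂ hu₂ hu hb₂
  rw [S.prime₂] at hn₁
  rw [S.prime₁] at hn₂
  obtain ⟨F, _, _, _, _, _, _, α, hcomm, hα⟩ := hu.abelian
  have he₁ : Even (Nat.card S.L₁.π.ker) := S.even₁
  have he₂ : Even (Nat.card S.L₂.π.ker) := S.even₂
  rw [← card_ker hσ S.L₁.π] at he₁
  rw [← card_ker hσ S.L₂.π] at he₂
  have h1 := two_norms D₁.art D₂.art D₁₂.art S.M₁.incl S.M₂.incl (p₁ := S.L₁.π) (p₂ := S.L₂.π) (π₁ := S.M₁.π)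
    (π₂ := S.M₂.π) (proj_eq hσ S) S.M₁.restrict S.M₂.restrict S.fibre he₁ he₂ hcomm hα ha₁ ha₂
  rw [← hn₁, ← hn₂, ← incl_eq hσ S] at h1
  exact S.L₁.incl.toRingHom.injective (S.M₁.incl.toRingHom.injective h1)

end

end aux

open Pool.Agent.X287.ST in
/-- **The Stark-Tate conjecture over real quadratic fields: from larger moduli to smaller ones.** -/
theorem result (K : Type) [Field K] [NumberField K] (hK : Module.finrank ℚ K = 2) (σ₁ σ₂ : K →+* ℝ)
    (hσ : σ₁ ≠ σ₂) (D : Datum K σ₁ σ₂)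
    (hyp : ∀ g h : D.G, ∃ (D₁ D₂ D₁₂ : Datum K σ₁ σ₂) (S : Square D D₁ D₂ D₁₂),
      D.c S.L₁.v.asIdeal = g ∧ D.c S.L₂.v.asIdeal = h ∧ D₁.StarkTate ∧ D₂.StarkTate ∧ D₁₂.StarkTate) :
    D.StarkTate := by
  classical
  -- the square roots
  have hroot : ∀ g : D.G, ∃ (w : (𝓞 D.H)ˣ) (b : D.H), b ^ 2 = ((w : 𝓞 D.H) : D.H) ∧
      (∀ A, D.τ (D.art A ((w : 𝓞 D.H) : D.H)) = Real.exp (-2 * (dd D A - dd D (A * g⁻¹)))) ∧
      ∀ φ : D.H →+* ℂ, φ.comp (algebraMap K D.H) = Complex.ofRealHom.comp σ₂ → ‖φ ((w : 𝓞 D.H) : D.H)‖ = 1 := by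
    intro g
    obtain ⟨D₁, D₂, D₁₂, S, h1, h2, h3, h4, -⟩ := hyp g g
    obtain ⟨u₁, hu₁⟩ := isU_of hσ D₁ h3
    obtain ⟨u₂, hu₂⟩ := isU_of hσ D₂ h4
    have h5 := base_root hσ hK S (h1.trans h2.symm) hu₁ hu₂
    rw [h1] at h5
    exact h5
  choose w b hb hw hwc using hroot
  have hbv : ∀ g A, D.τ (D.art A (b g ^ 2)) = Real.exp (-2 * (dd D A - dd D (A * g⁻¹))) := by
    intro g A
    rw [hb, hw]
  have hcomm : ∀ g h, b g / D.art h⁻¹ (b g) = b h / D.art g⁻¹ (b h) := by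
    intro g h
    obtain ⟨D₁, D₂, D₁₂, S, h1, h2, h3, h4, h5⟩ := hyp g h
    obtain ⟨u₁, hu₁⟩ := isU_of hσ D₁ h3
    obtain ⟨u₂, hu₂⟩ := isU_of hσ D₂ h4
    obtain ⟨u, hu⟩ := isU_of hσ D₁₂ h5
    have h6 := comm_rel hσ hK S hu₁ hu₂ hu (b₁ := b g) (b₂ := b h) (by rw [h1]; exact hbv g) (by rw [h2]; exact hbv h)
    rw [h1, h2] at h6
    exact h6
  have hw0 : ∀ g, ((w g : 𝓞 D.H) : D.H) ≠ 0 := fun g => by simp
  have hb0 : ∀ g, b g ≠ 0 := by
    intro g h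
    have h1 := hb g
    rw [h, zero_pow two_ne_zero] at h1
    exact hw0 g h1.symm
  -- the complex conjugation
  obtain ⟨y, hy0, hy1, hy2, -⟩ := exists_sign_mod D.ne_bot σ₂
  have hZ : IsPZ D.𝔪 D.c D.Z := ⟨D.isPartialZeta.sum, D.isPartialZeta.analytic, D.isPartialZeta.mero⟩
  obtain ⟨hρ2, hsign⟩ := quad_sign hK hσ D.ne_bot D.ne_top (classR hσ D) hZ hy0 hy1 hy2
  have hconj := D.conj y hy0 hy1 hy2
  set ρ : D.G := D.c (Ideal.span {y}) with hρ
  have hρinv : ρ⁻¹ = ρ := by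
    rw [inv_eq_iff_mul_eq_one]
    exact hρ2
  have hdρ : ∀ A, dd D (A * ρ) = -dd D A := by
    intro A
    have h1 := hsign A
    rw [(dd_eq hσ D).2, (dd_eq hσ D).2, ← Complex.ofReal_add] at h1
    have h2 : dd D A + dd D (A * ρ) = 0 := by exact_mod_cast h1
    linarith
  -- an embedding above `σ₂`
  obtain ⟨φ, hφ⟩ : ∃ φ : D.H →+* ℂ, φ.comp (algebraMap K D.H) = Complex.ofRealHom.comp σ₂ := by
    let _ : Algebra K ℂ := (Complex.ofRealHom.comp σ₂).toAlgebra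
    have _ : Algebra.IsAlgebraic K D.H := Algebra.IsAlgebraic.of_finite K D.H
    let φ : D.H →ₐ[K] ℂ := IsAlgClosed.lift
    refine ⟨φ, ?_⟩
    ext a
    exact φ.commutes a
  -- `b g` and the complex conjugation
  have hbρ : ∀ g, b g * D.art ρ (b g) = 1 := by
    intro g
    have h1 : (b g * D.art ρ (b g)) ^ 2 = 1 := by
      refine tau_inj hσ D ?_
      have h2 := hbv g 1
      rw [art_one hσ, one_mul] at h2
      have h3 := hbv g ρ
      rw [mul_pow, ← map_pow (D.art ρ), map_mul, h2, h3, ← Real.exp_add, map_one, Real.exp_eq_one_iff]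
      have h4 := hdρ 1
      rw [one_mul] at h4
      have h5 := hdρ g⁻¹
      rw [mul_comm] at h5
      rw [h4, h5]
      ring
    rcases sq_eq_sq_iff_eq_or_eq_neg.1 (h1.trans (one_pow 2).symm) with h2 | h2
    · exact h2
    · exfalso
      have h3 := congrArg φ h2
      rw [map_mul, hconj φ hφ, map_neg, map_one, Complex.mul_conj] at h3
      have h4 := Complex.normSq_nonneg (φ (b g))
      have h5 : Complex.normSq (φ (b g)) = -1 := by exact_mod_cast h3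
      linarith
  -- the unit
  obtain ⟨ε, hε2, hεpos, hεc⟩ : ∃ ε : D.H, ε ^ 2 = ((w ρ : 𝓞 D.H) : D.H) ∧ 0 < D.τ ε ∧
      ∀ g, b g / D.art ρ (b g) = ε / D.art g⁻¹ ε := by
    have h1 : D.τ (b ρ) ≠ 0 := (map_ne_zero D.τ).2 (hb0 ρ)
    have h2 : ∀ g, b g / D.art ρ (b g) = b ρ / D.art g⁻¹ (b ρ) := by
      intro g
      have h3 := hcomm g ρ
      rwa [hρinv] at h3
    rcases lt_or_gt_of_ne h1 with h3 | h3
    · refine ⟨-b ρ, by rw [neg_sq, hb], by rw [map_neg]; linarith, fun g => ?_⟩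
      rw [h2, map_neg, neg_div_neg_eq]
    · exact ⟨b ρ, hb ρ, h3, h2⟩
  have hε0 : ε ≠ 0 := by
    rintro rfl
    rw [map_zero] at hεpos
    exact lt_irrefl _ hεpos
  have hbε : ∀ g, b g ^ 2 = ε / D.art g⁻¹ ε := by
    intro g
    rw [← hεc g, eq_div_iff ((map_ne_zero_iff _ (D.art ρ).injective).2 (hb0 g)), pow_two, mul_assoc, hbρ, mul_one]
  have hτε : D.τ ε = Real.exp (-2 * dd D 1) := by
    have h1 : (D.τ ε) ^ 2 = (Real.exp (-2 * dd D 1)) ^ 2 := by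
      have h2 := hw ρ 1
      rw [art_one hσ, ← hε2, map_pow] at h2
      have h4 := hdρ 1
      rw [one_mul] at h4
      rw [h2, ← Real.exp_nat_mul, one_mul, hρinv, h4]
      congr 1
      push_cast
      ring
    exact (pow_left_inj₀ hεpos.le (Real.exp_pos _).le two_ne_zero).1 h1
  have hval : ∀ A, D.τ (D.art A ε) = Real.exp (-2 * dd D A) := by
    intro A
    have h1 := hbv A⁻¹ 1
    rw [art_one hσ, hbε, inv_inv, one_mul, map_div₀, hτε] at h1
    have h2 : D.τ (D.art A ε) ≠ 0 := (map_ne_zero D.τ).2 ((map_ne_zero_iff _ (D.art A).injective).2 hε0)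
    rw [div_eq_iff h2] at h1
    have h3 : Real.exp (-2 * dd D 1) = Real.exp (-2 * (dd D 1 - dd D A)) * Real.exp (-2 * dd D A) := by
      rw [← Real.exp_add]
      congr 1
      ring
    rw [h3] at h1
    exact (mul_left_cancel₀ (Real.exp_ne_zero _) h1).symm
  have hi : IsIntegral ℤ ε := by
    refine IsIntegral.of_pow two_pos ?_
    rw [hε2]
    exact (w ρ : 𝓞 D.H).isIntegral_coe
  have hi2 : IsIntegral ℤ ε⁻¹ := by
    refine IsIntegral.of_pow two_pos ?_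
    rw [inv_pow, hε2]
    exact unit_inv_integral (w ρ)
  obtain ⟨U, hU⟩ := mk_unit hε0 hi hi2
  refine of_isU hσ D U ?_
  rw [hU]
  refine ⟨hval, fun ψ hψ => ?_, ?_⟩
  · have h1 := hwc ρ ψ hψ
    rw [← hε2, map_pow, norm_pow] at h1
    exact (pow_eq_one_iff_of_nonneg (norm_nonneg _) two_ne_zero).1 h1
  · refine kummer_abelian D.art hε0 (fun g => (b g⁻¹)⁻¹) (fun g => ?_) (fun g h => ?_)
    · have h1 := hbε g⁻¹
      rw [inv_inv] at h1
      have h2 : D.art g ε ≠ 0 := (map_ne_zero_iff _ (D.art g).injective).2 hε0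
      rw [inv_pow, h1]
      field_simp
    · have h1 := hcomm g⁻¹ h⁻¹
      rw [inv_inv, inv_inv] at h1
      have h2 : D.art h (b g⁻¹) ≠ 0 := (map_ne_zero_iff _ (D.art h).injective).2 (hb0 _)
      have h3 : D.art g (b h⁻¹) ≠ 0 := (map_ne_zero_iff _ (D.art g).injective).2 (hb0 _)
      rw [div_eq_div_iff h2 h3] at h1
      show (b g⁻¹)⁻¹ * D.art g (b h⁻¹)⁻¹ = (b h⁻¹)⁻¹ * D.art h (b g⁻¹)⁻¹
      rw [map_inv₀, map_inv₀, ← mul_inv, ← mul_inv, h1]

end Pool.Agent.Results.MP_1ef7cf_nt.LargerModuli
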