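import Pool.Agent.X242.DR10

/-!
# The Stark-Tate conjecture over real quadratic fields and universal rational approximations

Let `K` be a real quadratic field with real embeddings `σ₁ ≠ σ₂`, `𝔪 ≠ (0), (1)` an ideal, `H` the ray class field of
modulus `𝔪∞₂`, with group `G`, and `τ` a real embedding of `H` above `σ₁`.

**Rational weights.** Let `C_1(γ) = -(γ_E + iγ)`, with Euler's constant `γ_E`. Fix `γ > π/2` and rational numbers `ρ_N(n)`,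
for every `N` almost all of them zero, with
`|ρ_N(n) - Re (N e^{iγ log n / N} / (C_1(γ) Γ(1 + log n / N)))| ≤ 1 / (N n²)`. They do not depend on `K`, `𝔪`. For `g` in
`G` put `x_N(g) = ∑_𝔞 ρ_N(N 𝔞)`, summed over the ideals prime to `𝔪` with Artin symbol `g`: a rational number, a finite
rational linear combination of the numbers of ideals of given norm in the class `g`.

Everything is proved without assumptions on the zeta functions (the continuation and the vanishing at `0` of the partial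
zeta functions are theorems of the library `Pool.Agent.X287`).

1. `ζ(0, g) = 0`, `ζ'(0, g)` is real and `x_N(g) = ζ'(0, g) + O(1/N)`.
2. **The whole conjecture in terms of approximations.** Let `Λ` be the set of the vectors `(-(1/2) log τ(g u))_g` for the
   units `u` of `H` with `τ(g u) > 0` for all `g`, `|ψ(u)| = 1` for all embeddings `ψ` of `H` above `σ₂`, and
   `H((g u)^{1/2})` abelian over `K` for all `g` (a discrete set). Q1 is true for `(K, 𝔪)` if and only if the rational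
   vectors `x_N` come arbitrarily close to `Λ` for arbitrarily large `N`.
   (The proof uses that an algebraic integer of `H` with all conjugates bounded belongs to a finite set.)
3. **The square root condition.** Suppose that Stark`(K, 𝔪)` is true, and let `Λ₀` be the set of 2 without the condition
   on the square roots. Then Q1 is false for `(K, 𝔪)` if and only if there is a `δ > 0` such that for all large `N` the
   vector `x_N` has distance less than `δ` from a vector of `Λ₀` and distance at least `δ` from all the vectors of `Λ`.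
-/

set_option autoImplicit false

namespace Pool.Agent.Results.MP_1ef7cf_nt.LatticeApproximations

open Filter Topology NumberField IsDedekindDomain Pool.Agent.X242.DR Asymptotics

section

variable {K H : Type} [Field K] [NumberField K] [Field H] [NumberField H] [Algebra K H]

/-- `K` is a real quadratic field with the real embeddings `σ₁ ≠ σ₂`. -/
structure IsRealQuadratic (σ₁ σ₂ : K →+* ℝ) : Prop where
  deg : Module.finrank ℚ K = 2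
  ne : σ₁ ≠ σ₂

/-- `𝔞` and `𝔟` have the same class modulo `𝔪∞₂`: `α 𝔞 = β 𝔟` with nonzero integers `α ≡ β ≡ 1` modulo `𝔪` such that
`σ₂(β / α)` is positive. -/
def SameClass (σ₂ : K →+* ℝ) (𝔪 𝔞 𝔟 : Ideal (𝓞 K)) : Prop :=
  ∃ α β : 𝓞 K, α ≠ 0 ∧ β ≠ 0 ∧ α - 1 ∈ 𝔪 ∧ β - 1 ∈ 𝔪 ∧
    0 < σ₂ (α : K) * σ₂ (β : K) ∧ Ideal.span {α} * 𝔞 = Ideal.span {β} * 𝔟

/-- `H` is the ray class field of modulus `𝔪∞₂` with the Artin map `A`: multiplicative and onto, with value the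
Frobenius automorphism at the primes not dividing `𝔪`, and `A 𝔞 = A 𝔟` exactly for ideals of the same class. -/
structure IsRayClassField (σ₂ : K →+* ℝ) (𝔪 : Ideal (𝓞 K)) (A : Ideal (𝓞 K) → (H ≃ₐ[K] H)) : Prop where
  galois : IsGalois K H
  mul : ∀ 𝔞 𝔟 : Ideal (𝓞 K), IsCoprime 𝔞 𝔪 → IsCoprime 𝔟 𝔪 → A (𝔞 * 𝔟) = A 𝔞 * A 𝔟
  onto : ∀ g : H ≃ₐ[K] H, ∃ 𝔞 : Ideal (𝓞 K), IsCoprime 𝔞 𝔪 ∧ A 𝔞 = g
  frob : ∀ 𝔭 : HeightOneSpectrum (𝓞 K), IsCoprime 𝔭.asIdeal 𝔪 → ∀ 𝔓 : HeightOneSpectrum (𝓞 H),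
    𝔓.asIdeal.comap (algebraMap (𝓞 K) (𝓞 H)) = 𝔭.asIdeal → ∀ x y : 𝓞 H,
      (y : H) = A 𝔭.asIdeal (x : H) → y - x ^ (Ideal.absNorm 𝔭.asIdeal) ∈ 𝔓.asIdeal
  ker : ∀ 𝔞 𝔟 : Ideal (𝓞 K), IsCoprime 𝔞 𝔪 → IsCoprime 𝔟 𝔪 → (A 𝔞 = A 𝔟 ↔ SameClass σ₂ 𝔪 𝔞 𝔟)

/-- The absolute value is `1` at all embeddings of `H` above `σ₂`. -/
def OnCircle (σ₂ : K →+* ℝ) (u : H) : Prop :=
  ∀ ψ : H →+* ℂ, ψ.comp (algebraMap K H) = Complex.ofRealHom.comp σ₂ → ‖ψ u‖ = 1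

/-- Property 2: `h(ε_g) = ε_{gh}`. -/
def IsEquivariant (ε : (H ≃ₐ[K] H) → (𝓞 H)ˣ) : Prop :=
  ∀ g h : H ≃ₐ[K] H, h ((ε g : 𝓞 H) : H) = ((ε (g * h) : 𝓞 H) : H)

/-- Property 1: `ε_g = exp(-2ζ'(0, g))` in the real embedding `τ`. -/
def StarkIdentities (τ : H →+* ℝ) (ζ : (H ≃ₐ[K] H) → ℂ → ℂ) (ε : (H ≃ₐ[K] H) → (𝓞 H)ˣ) : Prop :=
  ∀ g : H ≃ₐ[K] H, ((τ ((ε g : 𝓞 H) : H) : ℝ) : ℂ) = Complex.exp (-2 * deriv (ζ g) 0)

variable (K) in
/-- `H(u^{1/2})` is abelian over `K`: for a root `η` of `X ^ 2 = u` in an algebraic closure of `H` the extension `H(η)/K`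
is Galois with abelian Galois group. -/
def AbelianRoot (u : H) : Prop :=
  ∃ η : AlgebraicClosure H, η ^ 2 = algebraMap H _ u ∧
    IsGalois K (IntermediateField.adjoin K
      (Set.range (algebraMap H (AlgebraicClosure H)) ∪ {η})) ∧
    ∀ σ τ : (IntermediateField.adjoin K
      (Set.range (algebraMap H (AlgebraicClosure H)) ∪ {η})) ≃ₐ[K] (IntermediateField.adjoin K
      (Set.range (algebraMap H (AlgebraicClosure H)) ∪ {η})), σ * τ = τ * σ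

/-- Stark`(K, 𝔪)`: there are units with the properties 1, 2 and 3. -/
def StarkConjecture (σ₂ : K →+* ℝ) (τ : H →+* ℝ) (ζ : (H ≃ₐ[K] H) → ℂ → ℂ) : Prop :=
  ∃ ε : (H ≃ₐ[K] H) → (𝓞 H)ˣ, StarkIdentities τ ζ ε ∧ IsEquivariant ε ∧
    ∀ g : H ≃ₐ[K] H, OnCircle σ₂ ((ε g : 𝓞 H) : H)

/-- Q1 for `(K, 𝔪)`: there are units with the properties 1, 2 and 3 and with abelian fields `H(ε_g^{1/2})/K`. -/
def StarkTateConjecture (σ₂ : K →+* ℝ) (τ : H →+* ℝ) (ζ : (H ≃ₐ[K] H) → ℂ → ℂ) : Prop :=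
  ∃ ε : (H ≃ₐ[K] H) → (𝓞 H)ˣ, StarkIdentities τ ζ ε ∧ IsEquivariant ε ∧
    (∀ g : H ≃ₐ[K] H, OnCircle σ₂ ((ε g : 𝓞 H) : H)) ∧
    ∀ g : H ≃ₐ[K] H, AbelianRoot K ((ε g : 𝓞 H) : H)

variable (K) in
/-- `u` is a unit of `H`, positive in all the embeddings `τ ∘ g`. -/
def IsPositiveUnit (τ : H →+* ℝ) (u : H) : Prop :=
  (∃ a : (𝓞 H)ˣ, ((a : 𝓞 H) : H) = u) ∧ ∀ g : H ≃ₐ[K] H, 0 < τ (g u)

/-- `-(1/2) log τ(g u)` -/
noncomputable def logVec (τ : H →+* ℝ) (u : H) (g : H ≃ₐ[K] H) : ℝ := -(1 / 2) * Real.log (τ (g u))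

/-- `u` defines a vector of the set `Λ₀`. -/
def InLattice (σ₂ : K →+* ℝ) (τ : H →+* ℝ) (u : H) : Prop := IsPositiveUnit K τ u ∧ OnCircle σ₂ u

/-- `u` defines a vector of the set `Λ`. -/
def InTateSet (σ₂ : K →+* ℝ) (τ : H →+* ℝ) (u : H) : Prop :=
  InLattice σ₂ τ u ∧ ∀ g : H ≃ₐ[K] H, AbelianRoot K (g u)

/-- The vector `x_N` has distance less than `δ` (in the maximum norm) from a vector of an element `u` with the
property `P`. -/
def Close (𝔪 : Ideal (𝓞 K)) (A : Ideal (𝓞 K) → (H ≃ₐ[K] H)) (ρ : ℕ → ℕ →₀ ℚ) (τ : H →+* ℝ) (P : H → Prop)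
    (N : ℕ) (δ : ℝ) : Prop :=
  ∃ u : H, P u ∧ ∀ g : H ≃ₐ[K] H, |(classComb 𝔪 A (ρ N) g : ℝ) - logVec τ u g| < δ

theorem gal_finite : Finite (H ≃ₐ[K] H) := by
  have : Module.Finite K H := Module.Finite.of_restrictScalars_finite ℚ K H
  infer_instance

theorem two_embeddings {σ₁ σ₂ : K →+* ℝ} (hK : IsRealQuadratic σ₁ σ₂) (ψ : K →+* ℂ) :
    ψ = Complex.ofRealHom.comp σ₁ ∨ ψ = Complex.ofRealHom.comp σ₂ := by
  classical
  by_contra hcon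
  push Not at hcon
  have hinj : ∀ a b : K →+* ℝ, Complex.ofRealHom.comp a = Complex.ofRealHom.comp b → a = b := by
    intro a b hab
    ext x
    have := congrArg (fun f : K →+* ℂ => f x) hab
    simpa using this
  have hne : Complex.ofRealHom.comp σ₁ ≠ Complex.ofRealHom.comp σ₂ := fun h => hK.ne (hinj _ _ h)
  have hcard : ({ψ, Complex.ofRealHom.comp σ₁, Complex.ofRealHom.comp σ₂} : Finset (K →+* ℂ)).card = 3 := by
    rw [Finset.card_eq_three]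
    exact ⟨_, _, _, hcon.1, hcon.2, hne, rfl⟩
  have h1 := Finset.card_le_univ
    ({ψ, Complex.ofRealHom.comp σ₁, Complex.ofRealHom.comp σ₂} : Finset (K →+* ℂ))
  rw [hcard, NumberField.Embeddings.card, hK.deg] at h1
  omega

/-- The conjugates are bounded by the logarithms. -/
theorem bounded [IsGalois K H] {σ₁ σ₂ : K →+* ℝ} (hK : IsRealQuadratic σ₁ σ₂) {τ : H →+* ℝ}
    (hτ : τ.comp (algebraMap K H) = σ₁) (B : ℝ) :
    ∃ B' : ℝ, ∀ u : H, InLattice σ₂ τ u → (∀ g : H ≃ₐ[K] H, |logVec τ u g| ≤ B) →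
      ∀ ψ : H →+* ℂ, ‖ψ u‖ ≤ B' := by
  refine ⟨1 + Real.exp (2 * B), fun u hu hg ψ => ?_⟩
  have hexp : 0 < Real.exp (2 * B) := Real.exp_pos _
  rcases two_embeddings hK (ψ.comp (algebraMap K H)) with hψ | hψ
  · obtain ⟨φ, hφd⟩ : ∃ φ : H →+* ℂ, φ = Complex.ofRealHom.comp τ := ⟨_, rfl⟩
    have hφ : φ.comp (algebraMap K H) = ψ.comp (algebraMap K H) := by
      rw [hψ, ← hτ, hφd]
      rfl
    have h1 : InfinitePlace.mk (φ.comp (algebraMap K H)) =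
        InfinitePlace.mk (ψ.comp (algebraMap K H)) := by rw [hφ]
    rw [← InfinitePlace.comap_mk, ← InfinitePlace.comap_mk] at h1
    obtain ⟨σ, hσ⟩ := InfinitePlace.exists_smul_eq_of_comap_eq h1
    have h2 : ‖ψ u‖ = ‖φ (σ.symm u)‖ := by
      rw [← InfinitePlace.apply ψ, ← hσ, InfinitePlace.smul_apply, InfinitePlace.apply]
    have hpos := hu.1.2 σ.symm
    have h3 : ‖φ (σ.symm u)‖ = τ (σ.symm u) := by
      rw [hφd]
      show ‖((τ (σ.symm u) : ℝ) : ℂ)‖ = _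
      rw [Complex.norm_real, Real.norm_of_nonneg hpos.le]
    rw [h2, h3]
    have h4 := (abs_le.1 (hg σ.symm)).1
    unfold logVec at h4
    have h5 : Real.log (τ (σ.symm u)) ≤ 2 * B := by linarith
    have h6 : τ (σ.symm u) ≤ Real.exp (2 * B) := by
      rw [← Real.log_le_iff_le_exp hpos]
      exact h5
    linarith
  · rw [hu.2 ψ hψ]
    linarith

end

/-- **The Stark-Tate conjecture over real quadratic fields and rational approximations.** `K` is a real quadratic field, `H`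
is its ray class field of modulus `𝔪∞₂` with the Artin map `A`, `ζ` are the partial zeta functions, and `τ` is a real
embedding of `H` above `σ₁`. -/
theorem result :
    -- 0. the weights exist
    ((∀ γ : ℝ, Ck 1 γ = -(Real.eulerMascheroniConstant + γ * Complex.I)) ∧
      ∀ γ : ℝ, ∃ ρ, IsRational 1 γ ρ) ∧
    ∀ γ : ℝ, Real.pi / 2 < γ → ∀ ρ : ℕ → ℕ →₀ ℚ, IsRational 1 γ ρ →
    ∀ (K H : Type) [Field K] [NumberField K] [Field H] [NumberField H] [Algebra K H]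
      (σ₁ σ₂ : K →+* ℝ) (𝔪 : Ideal (𝓞 K)), IsRealQuadratic σ₁ σ₂ → 𝔪 ≠ ⊥ → 𝔪 ≠ ⊤ →
    ∀ A : Ideal (𝓞 K) → (H ≃ₐ[K] H), IsRayClassField σ₂ 𝔪 A →
    (∃ ζ : (H ≃ₐ[K] H) → ℂ → ℂ, PZ 𝔪 A ζ) ∧
    ∀ ζ : (H ≃ₐ[K] H) → ℂ → ℂ, PZ 𝔪 A ζ →
    ∀ τ : H →+* ℝ, τ.comp (algebraMap K H) = σ₁ →
    -- 1. the approximations
    (∀ g : H ≃ₐ[K] H, ζ g 0 = 0 ∧ (deriv (ζ g) 0).im = 0 ∧
      (fun N : ℕ => (classComb 𝔪 A (ρ N) g : ℝ) - (deriv (ζ g) 0).re) =O[atTop]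
        (fun N : ℕ => 1 / (N : ℝ))) ∧
    -- 2. the conjecture
    (StarkTateConjecture σ₂ τ ζ ↔
      ∀ δ : ℝ, 0 < δ → ∀ N₀ : ℕ, ∃ N ≥ N₀, Close 𝔪 A ρ τ (InTateSet σ₂ τ) N δ) ∧
    -- 3. the square root condition
    (StarkConjecture σ₂ τ ζ → (¬ StarkTateConjecture σ₂ τ ζ ↔
      ∃ δ : ℝ, 0 < δ ∧ ∃ N₀ : ℕ, ∀ N ≥ N₀, Close 𝔪 A ρ τ (InLattice σ₂ τ) N δ ∧
        ¬ Close 𝔪 A ρ τ (InTateSet σ₂ τ) N δ)) := by
  refine ⟨⟨fun γ => Ck_one γ, fun γ => exists_rational 1 γ⟩, ?_⟩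
  intro γ hγ ρ hρ K H _ _ _ _ _ σ₁ σ₂ 𝔪 hK h𝔣0 h𝔣1 A hA
  have hgal := hA.galois
  have hfin : Finite (H ≃ₐ[K] H) := gal_finite
  -- the Galois group is commutative, and the Artin map is a class map
  have hcomm : ∀ σ τ : H ≃ₐ[K] H, σ * τ = τ * σ := by
    intro σ τ
    obtain ⟨𝔞, h𝔞, rfl⟩ := hA.onto σ
    obtain ⟨𝔟, h𝔟, rfl⟩ := hA.onto τ
    rw [← hA.mul 𝔞 𝔟 h𝔞 h𝔟, ← hA.mul 𝔟 𝔞 h𝔟 h𝔞, mul_comm]
  have h1 : IsCoprime (⊤ : Ideal (𝓞 K)) 𝔪 := by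
    rw [← Ideal.one_eq_top]
    exact isCoprime_one_left
  have hone : A ⊤ = 1 := by
    have h2 := hA.mul ⊤ ⊤ h1 h1
    rw [Ideal.mul_top] at h2
    exact left_eq_mul.1 h2
  have hray : ∀ x : 𝓞 K, x ≠ 0 → x - 1 ∈ 𝔪 → (∀ σ : K →+* ℝ, σ ∉ ({σ₁} : Finset (K →+* ℝ)) →
      0 < σ (x : K)) → A (Ideal.span {x}) = 1 := by
    intro x hx0 hx1 hx2
    have h2 : IsCoprime (Ideal.span {x}) 𝔪 := Pool.Agent.X287.ST.cop_span hx1
    refine Eq.trans ((hA.ker _ _ h2 h1).2 ?_) hone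
    refine ⟨1, x, one_ne_zero, hx0, ?_, hx1, ?_, ?_⟩
    · rw [sub_self]
      exact 𝔪.zero_mem
    · have := hx2 σ₂ (by simpa using hK.ne.symm)
      simpa using this
    · rw [Ideal.span_singleton_one, Ideal.mul_top, Ideal.top_mul]
  have hr : 1 ≤ ({σ₁} : Finset (K →+* ℝ)).card + InfinitePlace.nrComplexPlaces K := by
    simp
  refine ⟨(class_facts hcomm h𝔣1 h𝔣0 hA.mul hray).1, ?_⟩
  intro ζ hζ τ hτ
  have hzero : ∀ g, ζ g 0 = 0 := fun g => class_zero hcomm h𝔣1 h𝔣0 hA.mul hray hr hζ g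
  have hmain : ∀ g : H ≃ₐ[K] H, (deriv (ζ g) 0).im = 0 ∧
      (fun N : ℕ => (classComb 𝔪 A (ρ N) g : ℝ) - (deriv (ζ g) 0).re) =O[atTop]
        (fun N : ℕ => 1 / (N : ℝ)) := fun g =>
    class_law h𝔣1 hζ (lim_deriv (hζ.analytic g 0 (by norm_num)) (hzero g)) hγ (Ck_one_ne γ) hρ
  have hlim : ∀ g, Tendsto (fun N : ℕ => (classComb 𝔪 A (ρ N) g : ℝ)) atTop
      (𝓝 (deriv (ζ g) 0).re) := fun g => tendsto_of_law (hmain g).2
  have hre : ∀ g, deriv (ζ g) 0 = ((deriv (ζ g) 0).re : ℂ) := by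
    intro g
    apply Complex.ext <;> simp [(hmain g).1]
  -- property 1 for one real number
  have hX : ∀ (g : H ≃ₐ[K] H) (x : ℝ), ((x : ℝ) : ℂ) = Complex.exp (-2 * deriv (ζ g) 0) ↔
      0 < x ∧ -(1 / 2) * Real.log x = (deriv (ζ g) 0).re := by
    intro g x
    have h2 : Complex.exp (-2 * deriv (ζ g) 0) = ((Real.exp (-2 * (deriv (ζ g) 0).re) : ℝ) : ℂ) := by
      conv_lhs => rw [hre g]
      push_cast
      rfl
    rw [h2, Complex.ofReal_inj]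
    constructor
    · intro h
      rw [h, Real.log_exp]
      exact ⟨Real.exp_pos _, by ring⟩
    · rintro ⟨h3, h4⟩
      rw [← h4]
      have h5 : -2 * (-(1 / 2) * Real.log x) = Real.log x := by ring
      rw [h5, Real.exp_log h3]
  have hint : ∀ u : H, InLattice σ₂ τ u → IsIntegral ℤ u := by
    intro u hu
    obtain ⟨a, ha⟩ := hu.1.1
    rw [← ha]
    exact (a : 𝓞 H).2
  -- families and elements
  have hfam : ∀ P : H → Prop, (∃ ε : (H ≃ₐ[K] H) → (𝓞 H)ˣ, StarkIdentities τ ζ ε ∧ IsEquivariant ε ∧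
      (∀ g : H ≃ₐ[K] H, OnCircle σ₂ ((ε g : 𝓞 H) : H)) ∧ ∀ g : H ≃ₐ[K] H, P ((ε g : 𝓞 H) : H)) ↔
      ∃ u : H, (InLattice σ₂ τ u ∧ ∀ g : H ≃ₐ[K] H, P (g u)) ∧
        ∀ g, logVec τ u g = (deriv (ζ g) 0).re := by
    intro P
    constructor
    · rintro ⟨ε, he1, he2, he3, he4⟩
      have h5 : ∀ g : H ≃ₐ[K] H, g ((ε 1 : 𝓞 H) : H) = ((ε g : 𝓞 H) : H) := by
        intro g
        rw [he2 1 g, one_mul]
      refine ⟨((ε 1 : 𝓞 H) : H), ⟨⟨⟨⟨ε 1, rfl⟩, fun g => ?_⟩, he3 1⟩, fun g => ?_⟩, fun g => ?_⟩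
      · rw [h5 g]
        exact ((hX g _).1 (he1 g)).1
      · rw [h5 g]
        exact he4 g
      · show logVec τ ((ε 1 : 𝓞 H) : H) g = _
        unfold logVec
        rw [h5 g]
        exact ((hX g _).1 (he1 g)).2
    · rintro ⟨u, ⟨⟨⟨⟨a, ha⟩, hu2⟩, hu3⟩, hu5⟩, hu4⟩
      have h5 : ∀ g : H ≃ₐ[K] H,
          (((Units.map (RingOfIntegers.mapRingEquiv g.toRingEquiv : 𝓞 H →* 𝓞 H) a : (𝓞 H)ˣ) : 𝓞 H) : H) =
            g u := by
        intro g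
        rw [← ha]
        rfl
      refine ⟨fun g => Units.map (RingOfIntegers.mapRingEquiv g.toRingEquiv : 𝓞 H →* 𝓞 H) a,
        fun g => ?_, fun g h => ?_, fun g ψ hψ => ?_, fun g => ?_⟩
      · show ((τ (((Units.map (RingOfIntegers.mapRingEquiv g.toRingEquiv : 𝓞 H →* 𝓞 H) a :
            (𝓞 H)ˣ) : 𝓞 H) : H) : ℝ) : ℂ) = _
        rw [h5 g]
        exact (hX g _).2 ⟨hu2 g, hu4 g⟩
      · show h (((Units.map (RingOfIntegers.mapRingEquiv g.toRingEquiv : 𝓞 H →* 𝓞 H) a :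
            (𝓞 H)ˣ) : 𝓞 H) : H) = (((Units.map (RingOfIntegers.mapRingEquiv (g * h).toRingEquiv :
            𝓞 H →* 𝓞 H) a : (𝓞 H)ˣ) : 𝓞 H) : H)
        rw [h5 g, h5 (g * h), hcomm g h]
        rfl
      · show ‖ψ (((Units.map (RingOfIntegers.mapRingEquiv g.toRingEquiv : 𝓞 H →* 𝓞 H) a :
            (𝓞 H)ˣ) : 𝓞 H) : H)‖ = 1
        rw [h5 g]
        refine hu3 (ψ.comp (g : H →+* H)) ?_
        rw [← hψ]
        ext x
        simp
      · show P (((Units.map (RingOfIntegers.mapRingEquiv g.toRingEquiv : 𝓞 H →* 𝓞 H) a :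
            (𝓞 H)ˣ) : 𝓞 H) : H)
        rw [h5 g]
        exact hu5 g
  have h3 := near_iff (P := InTateSet (K := K) σ₂ τ)
    (lam := fun g u => logVec τ u g) (θ := fun g => (deriv (ζ g) 0).re)
    (fun u hu => hint u hu.1)
    (fun B => by
      obtain ⟨B', hB'⟩ := bounded hK hτ B
      exact ⟨B', fun u hu => hB' u hu.1⟩)
    (x := fun N g => (classComb 𝔪 A (ρ N) g : ℝ)) hlim
  have h4 : StarkTateConjecture σ₂ τ ζ ↔
      ∀ δ : ℝ, 0 < δ → ∀ N₀ : ℕ, ∃ N ≥ N₀, Close 𝔪 A ρ τ (InTateSet (K := K) σ₂ τ) N δ :=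
    (hfam (AbelianRoot K)).trans h3
  refine ⟨fun g => ⟨hzero g, hmain g⟩, h4, fun hS => ?_⟩
  obtain ⟨u, ⟨hu1, -⟩, hu2⟩ := (hfam fun _ => True).1 (by
    obtain ⟨ε, he1, he2, he3⟩ := hS
    exact ⟨ε, he1, he2, he3, fun _ => trivial⟩)
  have h5 : ∀ δ : ℝ, 0 < δ → ∀ᶠ N : ℕ in atTop, Close 𝔪 A ρ τ (InLattice (K := K) σ₂ τ) N δ := by
    intro δ hδ
    have h6 : ∀ᶠ N : ℕ in atTop, ∀ g : H ≃ₐ[K] H, |(classComb 𝔪 A (ρ N) g : ℝ) - logVec τ u g| < δ := by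
      refine eventually_all.2 fun g => ?_
      have h7 := (hlim g).sub_const (deriv (ζ g) 0).re
      rw [sub_self] at h7
      have h8 := h7.abs
      rw [abs_zero] at h8
      rw [hu2 g]
      exact h8.eventually (gt_mem_nhds hδ)
    filter_upwards [h6] with N hN
    exact ⟨u, hu1, hN⟩
  constructor
  · intro hn
    rw [h4] at hn
    push Not at hn
    obtain ⟨δ, hδ, N₀, hN₀⟩ := hn
    obtain ⟨N₁, hN₁⟩ := eventually_atTop.1 (h5 δ hδ)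
    exact ⟨δ, hδ, max N₀ N₁, fun N hN => ⟨hN₁ N (le_trans (le_max_right _ _) hN),
      hN₀ N (le_trans (le_max_left _ _) hN)⟩⟩
  · rintro ⟨δ, hδ, N₀, hN₀⟩ hT
    obtain ⟨N, hN, hc⟩ := h4.1 hT δ hδ N₀
    exact (hN₀ N hN).2 hc

end Pool.Agent.Results.MP_1ef7cf_nt.LatticeApproximations
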