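import Pool.Agent.X287.STQ

/-!
# The Stark-Tate conjecture over real quadratic fields: the square root condition and sums over prime ideals

`K` is a real quadratic field with real embeddings `σ₁ ≠ σ₂`, `𝔪 ≠ (0), (1)` an ideal, `G` a finite abelian group and `c` a map
from the ideals to `G`, multiplicative on the ideals prime to `𝔪`, trivial on the ideals `(x)` with `x ≡ 1` modulo `𝔪` and
`σ₂(x) > 0`: for example the ray class group modulo `𝔪∞₂`, and `c(𝔞)` the class of `𝔞`. Let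
`ζ(s, A) = ∑_{c(𝔞) = A} N𝔞^{-s}` (`𝔞` prime to `𝔪`), continued, and `η_A = exp(-ζ'(0, A)) > 0`, so that Stark's units are the
`ε_A = η_A²`. For a fixed `γ > π/2` let

`𝒮(T) = ∑_{v ∤ 𝔪} ∑_{k ≥ 1} exp(iγ k log Nv / T) / (k Γ(1 + k log Nv / T)) c(v)^k ∈ ℂ[G]`, `D_A(T) = T e^{-Λ(γ)} [exp 𝒮(T)]_A`

with the exponential of the group ring and the coefficient `[·]_A` of `A` (absolutely convergent; `D_A(T) = ζ'(0, A) + O(1/T)`
unconditionally).

1. Suppose that Q1 is true for `(K, 𝔪)`: there are a Galois extension `H/K` with group `G` (`art : G ≅ Gal(H/K)`), a real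
   embedding of `H` above `σ₁` and units `ε_A` with 1. `ε_A = η_A²`, 2. `art(B) ε_A = ε_{AB}`, 3. absolute value `1` in all the
   embeddings above `σ₂`, and the fields `H(ε_A^{1/2})` are abelian over `K`. Then for every `C ∈ G` there are signs `s(A)`, `A ∈ G`,
   such that
   (P) there is a monic polynomial `Q` over `O_K` with `σ₁(Q) = ∏_A (x - s(A) η_A η_{AC})` such that all the complex roots of
   `σ₂(Q)` have absolute value `1`.
   In particular the products `η_A η_B = exp(-ζ'(0, A) - ζ'(0, B))` (not only their squares) are algebraic units of degree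
   at most `|G|` over `K`. For `H(ε^{1/2})` abelian it suffices that it is contained in some abelian extension of `K`.
2. For every `C` and all signs `s`, unconditionally, (P) holds if and only if for all `n ≥ 1` and `0 ≤ j ≤ |G|` the coefficient of
   `x^j` in the polynomial `∏_A (x - s(A)^n exp(-n (D_A(T) + D_{AC}(T))))` comes, for arbitrarily large `T`, arbitrarily close to
   the discrete set `{σ₁(α) : α ∈ O_K, |σ₂(α)| ≤ binomial(|G|, j)}`; and if and only if for all `n`, `j` it is `σ₁(α) + O(1/T)` with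
   an `α` of this kind.

So the part of the conjecture which is due to Tate (the square root condition) has consequences for the values themselves which
are statements on absolutely convergent sums over the prime ideals of `K`.

Ingredients: Hecke's continuation with gamma factors (`Pool.Agent.Y773`, `Y772`), the rotated law at `s = 0` (`Pool.Agent.X287.CR`,
`ST`), resultants for the polynomials of the `n`-th powers of the roots, Galois descent.
-/

set_option autoImplicit false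
set_option linter.unusedSectionVars false

open Filter Topology Asymptotics
open IsDedekindDomain NumberField Polynomial

namespace Pool.Agent.Results.MP_1ef7cf_nt.SquareRootCriterion

section defs
variable {K : Type} [Field K] [NumberField K] {G : Type} [CommGroup G] [Fintype G]

/-- `c` is multiplicative on the ideals prime to `𝔪`, and trivial on the ideals `(x)` with `x ≡ 1` modulo `𝔪` and
`σ₂(x) > 0`. -/
structure IsClassMap (𝔪 : Ideal (𝓞 K)) (σ₂ : K →+* ℝ) (c : Ideal (𝓞 K) → G) : Prop where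
  mul : ∀ I J : Ideal (𝓞 K), IsCoprime I 𝔪 → IsCoprime J 𝔪 → c (I * J) = c I * c J
  ray : ∀ x : 𝓞 K, x ≠ 0 → x - 1 ∈ 𝔪 → 0 < σ₂ (x : K) → c (Ideal.span {x}) = 1

/-- `Z A` is the partial zeta function of `A`, continued to `ℂ - {1}` and meromorphic at `1`. -/
structure IsPartialZeta (𝔪 : Ideal (𝓞 K)) (c : Ideal (𝓞 K) → G) (Z : G → ℂ → ℂ) : Prop where
  sum : ∀ (A : G) (s : ℂ), 1 < s.re → HasSum (fun I : {I : Ideal (𝓞 K) // IsCoprime I 𝔪 ∧ c I = A} =>
    ((Ideal.absNorm I.1 : ℕ) : ℂ) ^ (-s)) (Z A s)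
  analytic : ∀ (A : G) (s : ℂ), s ≠ 1 → AnalyticAt ℂ (Z A) s
  mero : ∀ A : G, MeromorphicAt (Z A) 1

/-- The primes which do not divide `𝔪`. -/
abbrev Places (𝔪 : Ideal (𝓞 K)) : Type := {v : HeightOneSpectrum (𝓞 K) // IsCoprime v.asIdeal 𝔪}

open Classical in
/-- The term of the prime `v = x.1` and the exponent `k = x.2 + 1` in the coefficient of `A` in `𝒮(T)`. -/
noncomputable def term (𝔪 : Ideal (𝓞 K)) (c : Ideal (𝓞 K) → G) (γ T : ℝ) (A : G) (x : Places 𝔪 × ℕ) : ℂ :=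
  if c (x.1.1.asIdeal ^ (x.2 + 1)) = A then
    Complex.exp ((γ * ((x.2 + 1) * Real.log (Ideal.absNorm x.1.1.asIdeal : ℕ) / T) : ℝ) * Complex.I) /
    (((x.2 + 1) * Real.Gamma (1 + (x.2 + 1) * Real.log (Ideal.absNorm x.1.1.asIdeal : ℕ) / T) : ℝ) : ℂ)
  else 0

/-- The coefficient of `A` in `𝒮(T)`. -/
noncomputable def frobSum (𝔪 : Ideal (𝓞 K)) (c : Ideal (𝓞 K) → G) (γ T : ℝ) (A : G) : ℂ :=
  ∑' x, term 𝔪 c γ T A x

open Classical in
/-- The coefficient of `g` in the power `f^n` of an element `f` of the group ring `ℂ[G]`. -/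
noncomputable def power (f : G → ℂ) : ℕ → G → ℂ
  | 0 => fun g => if g = 1 then 1 else 0
  | n + 1 => fun g => ∑ h, f h * power f n (h⁻¹ * g)

/-- The coefficient of `g` in the exponential of an element `f` of the group ring `ℂ[G]`. -/
noncomputable def expCoeff (f : G → ℂ) (g : G) : ℂ := ∑' n : ℕ, power f n g / n.factorial

/-- The constant `Λ(γ) = ∫_0^∞ (e^{-t} - e^{iγt} / Γ(1 + t)) dt / t`. -/
noncomputable def Lambda (γ : ℝ) : ℂ := ∫ t in Set.Ioi (0 : ℝ),
  (Complex.exp (-(t : ℂ)) - Complex.exp ((γ * t : ℝ) * Complex.I) * ((Real.Gamma (1 + t))⁻¹ : ℝ)) / t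

/-- `D_A(T) = T e^(-Λ) [exp 𝒮(T)]_A`. -/
noncomputable def approx (𝔪 : Ideal (𝓞 K)) (c : Ideal (𝓞 K) → G) (γ T : ℝ) (A : G) : ℂ :=
  T * Complex.exp (-Lambda γ) * expCoeff (frobSum 𝔪 c γ T) A

/-- The number `η_A = exp(-ζ'(0, A))`. -/
noncomputable def rootNumber (Z : G → ℂ → ℂ) (A : G) : ℂ := Complex.exp (-deriv (Z A) 0)

/-- The homomorphism `σ` from `O_K` to the complex numbers. -/
noncomputable def toComplex (σ : K →+* ℝ) : 𝓞 K →+* ℂ :=
  (Complex.ofRealHom.comp σ).comp (algebraMap (𝓞 K) K)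

/-- (P) for the numbers `x A`: a monic polynomial over `O_K` is mapped by `σ₁` to `∏ (X - x A)` and the roots of its image under
`σ₂` have absolute value `1`. -/
def HasCirclePolynomial (σ₁ σ₂ : K →+* ℝ) (x : G → ℂ) : Prop :=
  ∃ Q : (𝓞 K)[X], Q.Monic ∧ Q.map (toComplex σ₁) = ∏ A, (X - C (x A)) ∧
    ∀ y : ℂ, (Q.map (toComplex σ₂)).eval y = 0 → ‖y‖ = 1

/-- The properties 1, 2, 3 for units `ε A` of `H`, where `τ` is a real embedding of `H` above `σ₁`, and the square root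
condition: `H(ε_A^{1/2})` is contained in an extension `M` of `H` which is abelian over `K`. -/
structure IsStarkTateFamily {H : Type} [Field H] [NumberField H] [Algebra K H] (σ₁ σ₂ : K →+* ℝ)
    (art : G ≃* Gal(H/K)) (τ : H →+* ℝ) (Z : G → ℂ → ℂ) (ε : G → (𝓞 H)ˣ) : Prop where
  above : τ.comp (algebraMap K H) = σ₁
  eq : ∀ A, ((τ ((ε A : 𝓞 H) : H) : ℝ) : ℂ) = Complex.exp (-2 * deriv (Z A) 0)
  galois : ∀ A B, art B ((ε A : 𝓞 H) : H) = ((ε (A * B) : 𝓞 H) : H)
  circle : ∀ φ : H →+* ℂ, φ.comp (algebraMap K H) = Complex.ofRealHom.comp σ₂ →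
    ∀ A, ‖φ ((ε A : 𝓞 H) : H)‖ = 1
  abelian : ∀ A, ∃ (M : Type) (_ : Field M) (_ : NumberField M) (_ : Algebra H M) (_ : Algebra K M)
    (_ : IsScalarTower K H M) (_ : IsGalois K M) (α : M), (∀ a b : Gal(M/K), a * b = b * a) ∧
      α ^ 2 = algebraMap H M ((ε A : 𝓞 H) : H)

/-- The coefficient of `x^j` in `∏ (x - s(A)^n exp(-n (D_A(T) + D_{AC}(T))))`. -/
noncomputable def coefficient (𝔪 : Ideal (𝓞 K)) (c : Ideal (𝓞 K) → G) (γ T : ℝ) (s : G → ℤˣ) (C₀ : G) (n j : ℕ) : ℂ :=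
  (∏ A, (X - C (((s A : ℤ) : ℂ) ^ n *
    Complex.exp (-n * (approx 𝔪 c γ T A + approx 𝔪 c γ T (A * C₀)))))).coeff j

end defs

section aux
open Pool.Agent.X287.ST

variable {K : Type} [Field K] [NumberField K] {G : Type} [CommGroup G] [Fintype G]

theorem power_eq (f : G → ℂ) (n : ℕ) : power f n = pw f n := by
  induction n with
  | zero => rfl
  | succ n ih =>
    funext g
    show ∑ h, f h * power f n (h⁻¹ * g) = ∑ h, f h * pw f n (h⁻¹ * g)
    rw [ih]

theorem expCoeff_eq (f : G → ℂ) (g : G) : expCoeff f g = gexp f g := by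
  unfold expCoeff gexp
  exact tsum_congr fun n => by rw [power_eq]

theorem term_eq (𝔪 : Ideal (𝓞 K)) (c : Ideal (𝓞 K) → G) (γ T : ℝ) (g : G) (x : Places 𝔪 × ℕ) :
    term 𝔪 c γ T g x = Pool.Agent.X287.ST.term 𝔪 c 0 γ T g x := by
  unfold term Pool.Agent.X287.ST.term
  split_ifs
  · rw [neg_zero, Complex.cpow_zero, one_pow, one_mul]
  · rfl

theorem frobSum_eq (𝔪 : Ideal (𝓞 K)) (c : Ideal (𝓞 K) → G) (γ T : ℝ) :
    frobSum 𝔪 c γ T = Sg 𝔪 c 0 γ T := by
  funext g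
  exact tsum_congr fun x => term_eq 𝔪 c γ T g x

theorem approx_eq (𝔪 : Ideal (𝓞 K)) (c : Ideal (𝓞 K) → G) (γ T : ℝ) (g : G) :
    approx 𝔪 c γ T g = sc (Pool.Agent.W187.UR.Lam γ) (1 : ℤ) T * gexp (Sg 𝔪 c 0 γ T) g := by
  unfold approx sc
  rw [zpow_one, frobSum_eq, expCoeff_eq]
  rfl

end aux

open Pool.Agent.X287.ST in
/-- the square root condition: descent of the products of square roots -/
theorem sqrt_descent {K : Type} [Field K] [NumberField K] {G : Type} [CommGroup G] [Fintype G] {H : Type} [Field H]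
    [NumberField H] [Algebra K H] [IsGalois K H] {σ₁ σ₂ : K →+* ℝ} {art : G ≃* Gal(H/K)} {τ : H →+* ℝ}
    {Z : G → ℂ → ℂ} {ε : G → (𝓞 H)ˣ} (h : IsStarkTateFamily σ₁ σ₂ art τ Z ε) (C₀ : G) :
    ∃ s : G → ℤˣ, HasCirclePolynomial σ₁ σ₂ (fun A => ((s A : ℤ) : ℂ) * (rootNumber Z A * rootNumber Z (A * C₀))) := by
  classical
  obtain ⟨M, _, _, _, _, _, _, α, hcomm, hα⟩ := h.abelian 1
  have _ : Algebra.IsAlgebraic K H := Algebra.IsAlgebraic.of_finite K H
  have _ : IsGalois H M := IsGalois.tower_top_of_isGalois K H M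
  -- a lift of `art A`
  have hlift : ∀ A : G, ∃ g : Gal(M/K), ∀ x : H, g (algebraMap H M x) = algebraMap H M (art A x) := by
    intro A
    have hnorm : Normal K H := inferInstance
    obtain ⟨g, hg⟩ := AlgEquiv.restrictNormalHom_surjective (F := K) (K₁ := H) M (art A)
    refine ⟨g, fun x => ?_⟩
    have h1 := AlgEquiv.restrictNormal_commutes g H x
    have h2 : AlgEquiv.restrictNormal g H = art A := hg
    rw [h2] at h1
    exact h1.symm
  choose g hg using hlift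
  have hαA : ∀ A, (g A α) ^ 2 = algebraMap H M ((ε A : 𝓞 H) : H) := by
    intro A
    rw [← map_pow, hα, hg, h.galois, one_mul]
  set β : M := α * g C₀ α with hβ
  -- `β` lies in `H`
  have hβH : ∃ b : H, algebraMap H M b = β := by
    have h1 : ∀ t : Gal(M/H), t β = β := by
      intro t
      have h2 : (t α) ^ 2 = α ^ 2 := by
        rw [← map_pow, hα, t.commutes]
      have h3 : t α = α ∨ t α = -α := sq_eq_sq_iff_eq_or_eq_neg.1 h2
      have h4 : t (g C₀ α) = g C₀ (t α) := by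
        have h5 := hcomm (t.restrictScalars K) (g C₀)
        have h6 := congrArg (fun f : Gal(M/K) => f α) h5
        exact h6
      rw [hβ, map_mul, h4]
      rcases h3 with h3 | h3
      · rw [h3]
      · rw [h3, map_neg]
        ring
    obtain ⟨b, hb⟩ := IntermediateField.mem_bot.1 ((IsGalois.mem_bot_iff_fixed (F := H) (E := M) β).2 h1)
    exact ⟨b, hb⟩
  obtain ⟨b, hb⟩ := hβH
  have hbsq : ∀ A, (art A b) ^ 2 = ((ε A : 𝓞 H) : H) * ((ε (A * C₀) : 𝓞 H) : H) := by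
    intro A
    apply (algebraMap H M).injective
    rw [map_pow, ← hg A b, hb, hβ, map_mul, mul_pow, map_mul, hαA]
    congr 1
    rw [← map_pow, hαA, hg, h.galois, mul_comm C₀ A]
  -- the integers
  have hint : ∀ A, IsIntegral ℤ (art A b) := by
    intro A
    have h1 : IsIntegral ℤ ((art A b) ^ 2) := by
      rw [hbsq]
      exact (ε A : 𝓞 H).isIntegral_coe.mul (ε (A * C₀) : 𝓞 H).isIntegral_coe
    exact IsIntegral.of_pow (by norm_num) h1
  set ω : G → 𝓞 H := fun A => ⟨art A b, hint A⟩ with hω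
  obtain ⟨Q, hQm, hQ⟩ := descent art ω (fun A B => by
    show art B (art A b) = art (A * B) b
    rw [mul_comm A B, map_mul]
    rfl)
  have hext : ∀ (σ : K →+* ℝ) (φ : H →+* ℂ), φ.comp (algebraMap K H) = Complex.ofRealHom.comp σ →
      Q.map (toComplex σ) = ∏ A, (X - C (φ (art A b))) := by
    intro σ φ hφ
    have h2 := congrArg (Polynomial.map φ) hQ
    rw [Polynomial.map_map, Polynomial.map_prod] at h2
    have h3 : φ.comp ((algebraMap K H).comp (algebraMap (𝓞 K) K)) = toComplex σ := by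
      rw [← RingHom.comp_assoc, hφ]
      rfl
    rw [h3] at h2
    rw [h2]
    refine Finset.prod_congr rfl fun A _ => ?_
    rw [Polynomial.map_sub, Polynomial.map_X, Polynomial.map_C]
    rfl
  -- the signs
  have hsgn : ∀ A, ∃ s : ℤˣ, ((τ (art A b) : ℝ) : ℂ) = ((s : ℤ) : ℂ) * (rootNumber Z A * rootNumber Z (A * C₀)) := by
    intro A
    have h1 : (((τ (art A b) : ℝ) : ℂ)) ^ 2 = (rootNumber Z A * rootNumber Z (A * C₀)) ^ 2 := by
      rw [← Complex.ofReal_pow, ← map_pow, hbsq, map_mul, Complex.ofReal_mul, h.eq, h.eq]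
      unfold rootNumber
      rw [mul_pow, ← Complex.exp_nat_mul, ← Complex.exp_nat_mul]
      congr 2 <;> · push_cast; ring
    rcases sq_eq_sq_iff_eq_or_eq_neg.1 h1 with h2 | h2
    · exact ⟨1, by rw [h2]; simp⟩
    · exact ⟨-1, by rw [h2]; simp⟩
  choose s hs using hsgn
  refine ⟨s, Q, hQm, ?_, fun y hy => ?_⟩
  · have h2 := hext σ₁ (Complex.ofRealHom.comp τ) (by rw [RingHom.comp_assoc, h.above])
    rw [h2]
    refine Finset.prod_congr rfl fun A _ => ?_
    show X - C (((τ (art A b) : ℝ) : ℂ)) = _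
    rw [hs A]
  · let _ : Algebra K ℂ := (Complex.ofRealHom.comp σ₂).toAlgebra
    let φ : H →ₐ[K] ℂ := IsAlgClosed.lift
    have hφ : (φ : H →+* ℂ).comp (algebraMap K H) = Complex.ofRealHom.comp σ₂ := by
      ext a
      exact φ.commutes a
    have h2 := hext σ₂ φ hφ
    rw [h2, eval_prod, Finset.prod_eq_zero_iff] at hy
    obtain ⟨A, -, hA⟩ := hy
    rw [eval_sub, eval_X, eval_C, sub_eq_zero] at hA
    rw [hA]
    have h3 : ‖(φ : H →+* ℂ) (art A b)‖ ^ 2 = 1 := by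
      rw [← norm_pow, ← map_pow, hbsq, map_mul, norm_mul, h.circle φ hφ, h.circle φ hφ, one_mul]
    exact (pow_eq_one_iff_of_nonneg (norm_nonneg _) two_ne_zero).1 h3

open Pool.Agent.X287.ST in
/-- **The square root condition of the Stark-Tate conjecture and sums over prime ideals.** -/
theorem result (K : Type) [Field K] [NumberField K] (hK : Module.finrank ℚ K = 2) (σ₁ σ₂ : K →+* ℝ)
    (hσ : σ₁ ≠ σ₂) (𝔪 : Ideal (𝓞 K)) (h0 : 𝔪 ≠ ⊥) (h1 : 𝔪 ≠ ⊤) (G : Type) [CommGroup G] [Fintype G]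
    (c : Ideal (𝓞 K) → G) (hc : IsClassMap 𝔪 σ₂ c) (γ : ℝ) (hγ : Real.pi / 2 < γ) :
    (∃ Z : G → ℂ → ℂ, IsPartialZeta 𝔪 c Z) ∧
    (∀ (T : ℝ) (A : G), 0 < T → Summable fun x => ‖term 𝔪 c γ T A x‖) ∧
    ∀ Z : G → ℂ → ℂ, IsPartialZeta 𝔪 c Z →
      (∀ A, Z A 0 = 0 ∧ (deriv (Z A) 0).im = 0 ∧
        (fun T : ℝ => approx 𝔪 c γ T A - deriv (Z A) 0) =O[atTop] (fun T : ℝ => 1 / T)) ∧
      -- 1. Q1 for `(K, 𝔪)` implies (P) for every `C₀`, with signs
      (∀ (H : Type) [Field H] [NumberField H] [Algebra K H] [IsGalois K H] (art : G ≃* Gal(H/K)) (τ : H →+* ℝ)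
        (ε : G → (𝓞 H)ˣ), IsStarkTateFamily σ₁ σ₂ art τ Z ε → ∀ C₀ : G, ∃ s : G → ℤˣ,
          HasCirclePolynomial σ₁ σ₂ (fun A => ((s A : ℤ) : ℂ) * (rootNumber Z A * rootNumber Z (A * C₀)))) ∧
      -- 2. the criterion
      (∀ (C₀ : G) (s : G → ℤˣ),
        (HasCirclePolynomial σ₁ σ₂ (fun A => ((s A : ℤ) : ℂ) * (rootNumber Z A * rootNumber Z (A * C₀))) ↔
          ∀ n : ℕ, 1 ≤ n → ∀ j ≤ Fintype.card G, ∀ δ > 0, ∀ T₀ : ℝ,
            ∃ T ≥ T₀, ∃ α : 𝓞 K, |σ₂ (α : K)| ≤ (Fintype.card G).choose j ∧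
              ‖coefficient 𝔪 c γ T s C₀ n j - (σ₁ (α : K) : ℂ)‖ < δ) ∧
        (HasCirclePolynomial σ₁ σ₂ (fun A => ((s A : ℤ) : ℂ) * (rootNumber Z A * rootNumber Z (A * C₀))) ↔
          ∀ n : ℕ, 1 ≤ n → ∀ j ≤ Fintype.card G,
            ∃ α : 𝓞 K, |σ₂ (α : K)| ≤ (Fintype.card G).choose j ∧
              (fun T : ℝ => coefficient 𝔪 c γ T s C₀ n j - (σ₁ (α : K) : ℂ)) =O[atTop]
                (fun T : ℝ => 1 / T))) := by
  classical
  have hcR : IsClassMapR 𝔪 {σ₁} c := ⟨hc.mul, fun x hx0 hx1 hx2 => hc.ray x hx0 hx1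
    (hx2 σ₂ (by rw [Finset.mem_singleton]; exact hσ.symm))⟩
  have hr : 1 ≤ ({σ₁} : Finset (K →+* ℝ)).card + InfinitePlace.nrComplexPlaces K := by
    rw [Finset.card_singleton]
    omega
  have hr2 : 2 ≤ ({σ₁, σ₂} : Finset (K →+* ℝ)).card + InfinitePlace.nrComplexPlaces K := by
    rw [Finset.card_pair hσ]
    omega
  refine ⟨?_, fun T A hT => ?_, fun Z hZ => ?_⟩
  · obtain ⟨Z, hZ, -⟩ := exists_PZ_ord h1 h0 hcR
    exact ⟨Z, hZ.sum, hZ.an, hZ.mer⟩
  · refine (term_summable hcR.toClass (s₀ := 0) (by simp) γ hT A).congr fun x => ?_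
    rw [term_eq]
  have hZ' : IsPZ 𝔪 c Z := ⟨hZ.sum, hZ.analytic, hZ.mero⟩
  have hone := fun A => one_place h1 h0 hcR hr hZ' hγ A
  have hD : ∀ A, (fun T : ℝ => approx 𝔪 c γ T A - deriv (Z A) 0) =O[atTop] (fun T : ℝ => 1 / T) := by
    intro A
    refine (hone A).2.2.congr_left fun T => ?_
    rw [approx_eq]
  have hsum : ∑ A, deriv (Z A) 0 = 0 := by
    have h2 := push_deriv (R' := {σ₁, σ₂}) h1 h0 hcR.toClass hr2 hZ' (G' := Unit) 1
      (fun x _ _ _ => rfl) ()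
    have h3 : Finset.univ.filter (fun A : G => (1 : G →* Unit) A = ()) = Finset.univ := by
      ext A
      simp
    rwa [h3] at h2
  refine ⟨fun A => ⟨(hone A).1, (hone A).2.1, hD A⟩, fun H _ _ _ _ art τ ε hε C₀ =>
    sqrt_descent hε C₀, fun C₀ s => ?_⟩
  set x : G → ℂ := fun A => ((s A : ℤ) : ℂ) * (rootNumber Z A * rootNumber Z (A * C₀)) with hx
  have hprod : (∏ A, x A) ^ 2 = 1 := by
    have h2 : ∏ A, rootNumber Z A = 1 := by
      unfold rootNumber
      rw [← Complex.exp_sum, Finset.sum_neg_distrib, hsum, neg_zero, Complex.exp_zero]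
    have h3 : ∏ A, rootNumber Z (A * C₀) = 1 := by
      rw [← h2]
      exact Equiv.prod_comp (Equiv.mulRight C₀) (fun A => rootNumber Z A)
    have h4 : ∏ A, x A = ∏ A, ((s A : ℤ) : ℂ) := by
      rw [hx]
      simp only
      rw [Finset.prod_mul_distrib, Finset.prod_mul_distrib, h2, h3, mul_one, mul_one]
    rw [h4, ← Finset.prod_pow]
    refine Finset.prod_eq_one fun A _ => ?_
    rcases Int.units_eq_one_or (s A) with h5 | h5 <;> · rw [h5]; norm_num
  have hX : ∀ (n : ℕ) (A : G), (fun T : ℝ => ((s A : ℤ) : ℂ) ^ n *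
      Complex.exp (-n * (approx 𝔪 c γ T A + approx 𝔪 c γ T (A * C₀))) - x A ^ n) =O[atTop]
        (fun T : ℝ => 1 / T) := by
    intro n A
    have h2 : (fun T : ℝ => (approx 𝔪 c γ T A + approx 𝔪 c γ T (A * C₀)) -
        (deriv (Z A) 0 + deriv (Z (A * C₀)) 0)) =O[atTop] (fun T : ℝ => 1 / T) :=
      ((hD A).add (hD (A * C₀))).congr_left fun T => by ring
    have h3 := (comp_rate (f := fun z : ℂ => Complex.exp (-n * z)) (b := deriv (Z A) 0 + deriv (Z (A * C₀)) 0)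
      (by fun_prop) h2).const_mul_left (((s A : ℤ) : ℂ) ^ n)
    refine h3.congr_left fun T => ?_
    have h4 : x A ^ n = ((s A : ℤ) : ℂ) ^ n * Complex.exp (-n * (deriv (Z A) 0 + deriv (Z (A * C₀)) 0)) := by
      rw [hx]
      simp only
      unfold rootNumber
      rw [mul_pow, ← Complex.exp_add, ← Complex.exp_nat_mul]
      congr 2
      ring
    rw [h4]
    ring
  have hcoef : ∀ n j : ℕ, (fun T : ℝ => coefficient 𝔪 c γ T s C₀ n j -
      (∏ A, (X - C (x A ^ n))).coeff j) =O[atTop] (fun T : ℝ => 1 / T) := fun n j =>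
    coeff_rate Finset.univ (fun T A => ((s A : ℤ) : ℂ) ^ n *
      Complex.exp (-n * (approx 𝔪 c γ T A + approx 𝔪 c γ T (A * C₀)))) (fun A => x A ^ n) (hX n) j
  have h0T : Tendsto (fun T : ℝ => 1 / T) atTop (𝓝 (0 : ℝ)) :=
    tendsto_const_nhds.div_atTop tendsto_id
  have hPiff : HasCirclePolynomial σ₁ σ₂ x ↔ ∀ n : ℕ, 1 ≤ n → ∀ j ≤ Fintype.card G,
      ∃ α : 𝓞 K, ‖toC σ₂ α‖ ≤ (Fintype.card G).choose j ∧
        toC σ₁ α = (∏ A, (X - C (x A ^ n))).coeff j :=
    circle_iff2 (toC σ₁) (toC σ₂) (toC_inj σ₁) x hprod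
  have hPrate : HasCirclePolynomial σ₁ σ₂ x → ∀ n : ℕ, 1 ≤ n → ∀ j ≤ Fintype.card G,
      ∃ α : 𝓞 K, |σ₂ (α : K)| ≤ (Fintype.card G).choose j ∧
        (fun T : ℝ => coefficient 𝔪 c γ T s C₀ n j - (σ₁ (α : K) : ℂ)) =O[atTop] (fun T : ℝ => 1 / T) := by
    intro h n hn j hj
    obtain ⟨α, hα1, hα2⟩ := hPiff.1 h n hn j hj
    refine ⟨α, by rw [← norm_toC]; exact hα1, ?_⟩
    have h2 : (σ₁ (α : K) : ℂ) = (∏ A, (X - C (x A ^ n))).coeff j := by
      rw [← hα2]
      rfl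
    rw [h2]
    exact hcoef n j
  have hrate_app : (∀ n : ℕ, 1 ≤ n → ∀ j ≤ Fintype.card G,
      ∃ α : 𝓞 K, |σ₂ (α : K)| ≤ (Fintype.card G).choose j ∧
        (fun T : ℝ => coefficient 𝔪 c γ T s C₀ n j - (σ₁ (α : K) : ℂ)) =O[atTop] (fun T : ℝ => 1 / T)) →
      ∀ n : ℕ, 1 ≤ n → ∀ j ≤ Fintype.card G, ∀ δ > 0, ∀ T₀ : ℝ,
        ∃ T ≥ T₀, ∃ α : 𝓞 K, |σ₂ (α : K)| ≤ (Fintype.card G).choose j ∧
          ‖coefficient 𝔪 c γ T s C₀ n j - (σ₁ (α : K) : ℂ)‖ < δ := by
    intro h n hn j hj δ hδ T₀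
    obtain ⟨α, hα1, hα2⟩ := h n hn j hj
    have h4 := (hα2.trans_tendsto h0T).norm
    rw [norm_zero] at h4
    obtain ⟨T, hT1, hT2⟩ := ((h4.eventually_lt_const hδ).and (eventually_ge_atTop T₀)).exists
    exact ⟨T, hT2, α, hα1, hT1⟩
  have happ_P : (∀ n : ℕ, 1 ≤ n → ∀ j ≤ Fintype.card G, ∀ δ > 0, ∀ T₀ : ℝ,
        ∃ T ≥ T₀, ∃ α : 𝓞 K, |σ₂ (α : K)| ≤ (Fintype.card G).choose j ∧
          ‖coefficient 𝔪 c γ T s C₀ n j - (σ₁ (α : K) : ℂ)‖ < δ) → HasCirclePolynomial σ₁ σ₂ x := by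
    intro h
    rw [hPiff]
    intro n hn j hj
    set E := (∏ A, (X - C (x A ^ n))).coeff j with hE
    obtain ⟨α, hα1, hα2⟩ := closed_of_finite (toC σ₁)
      {a : 𝓞 K | |σ₂ (a : K)| ≤ (Fintype.card G).choose j}
      (fun M => quad_finite hK hσ _ M) (E := E) (fun δ hδ => by
        have h4 := ((hcoef n j).trans_tendsto h0T).norm
        rw [norm_zero] at h4
        obtain ⟨T₀, hT₀⟩ := eventually_atTop.1 (h4.eventually_lt_const (by positivity : (0 : ℝ) < δ / 2))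
        obtain ⟨T, hT, α, hα1, hα2⟩ := h n hn j hj (δ / 2) (by positivity) T₀
        refine ⟨α, hα1, ?_⟩
        have h5 : toC σ₁ α = (σ₁ (α : K) : ℂ) := rfl
        have h6 : E - toC σ₁ α = (coefficient 𝔪 c γ T s C₀ n j - (σ₁ (α : K) : ℂ)) -
            (coefficient 𝔪 c γ T s C₀ n j - E) := by
          rw [h5]
          ring
        rw [h6]
        calc _ ≤ ‖coefficient 𝔪 c γ T s C₀ n j - (σ₁ (α : K) : ℂ)‖ +
              ‖coefficient 𝔪 c γ T s C₀ n j - E‖ := norm_sub_le _ _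
          _ < δ := by
            have := hT₀ T hT
            linarith)
    refine ⟨α, ?_, hα2⟩
    rw [norm_toC]
    exact hα1
  exact ⟨⟨fun h => hrate_app (hPrate h), happ_P⟩, ⟨hPrate, fun h => happ_P (hrate_app h)⟩⟩

end Pool.Agent.Results.MP_1ef7cf_nt.SquareRootCriterion
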